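import Pool.Agent.N202.QD.Defs

/-!
# Quadratic relations
-/

set_option linter.unusedSectionVars false

namespace Pool.Agent.N202.QD

open Matrix

variable {ι : Type} [Fintype ι] [DecidableEq ι]

section bil

variable (p z : Matrix ι ι ℂ →ₗ[ℂ] Matrix ι ι ℂ)

/-- One side of the relation. -/
noncomputable def Fv (Z : Matrix ι ι ℂ) (i a d : ι) : ι → ℂ :=
  fun l => ∑ k, ∑ j, z (single j l 1) i k * (Z j a * Z k d)

/-- The vector of the other side. -/
noncomputable def Gv (Z : Matrix ι ι ℂ) (i a d : ι) : ι → ℂ :=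
  fun b => ∑ q, p (single a b 1) q d * Z i q

lemma Gv_eq (Z : Matrix ι ι ℂ) (i a d b : ι) : Gv p Z i a d b = (Z * p (single a b 1)) i d := by
  rw [Gv, Matrix.mul_apply]
  exact Finset.sum_congr rfl fun q _ => mul_comm _ _

lemma lin_expand (x : Matrix ι ι ℂ) : z x = ∑ j, ∑ l, x j l • z (single j l 1) := by
  conv_lhs => rw [matrix_eq_sum_single x]
  rw [map_sum]
  refine Finset.sum_congr rfl fun j _ => ?_
  rw [map_sum]
  refine Finset.sum_congr rfl fun l _ => ?_
  rw [← map_smul, smul_single, smul_eq_mul, mul_one]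

lemma conj_single (Z Z' : Matrix ι ι ℂ) (a b j l : ι) :
    (Z * single a b (1 : ℂ) * Z') j l = Z j a * Z' b l := by
  rw [Matrix.mul_apply, Finset.sum_eq_single b]
  · rw [Matrix.mul_single_apply_same, mul_one]
  · intro c _ hc
    rw [Matrix.mul_single_apply_of_ne _ _ _ _ _ hc, zero_mul]
  · intro h
    exact absurd (Finset.mem_univ b) h

lemma zF (Z Z' : Matrix ι ι ℂ) (i a d b : ι) :
    (z (Z * single a b 1 * Z') * Z) i d = (Z' *ᵥ Fv z Z i a d) b := by
  rw [lin_expand z, Matrix.mul_apply, Matrix.mulVec, dotProduct]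
  simp only [Fv, Matrix.sum_apply, Matrix.smul_apply, conj_single, smul_eq_mul, Finset.sum_mul,
    Finset.mul_sum]
  rw [Finset.sum_comm]
  conv_lhs =>
    enter [2, j]
    rw [Finset.sum_comm]
  rw [Finset.sum_comm]
  refine Finset.sum_congr rfl fun l _ => ?_
  rw [Finset.sum_comm]
  refine Finset.sum_congr rfl fun k _ => Finset.sum_congr rfl fun j _ => ?_
  ring

lemma bil_of (Z Z' : Matrix ι ι ℂ) (hZ : Z * Z' = 1)
    (h : ∀ x, z (Z * x * Z') = Z * p x * Z') (i a d c : ι) :
    (Z *ᵥ Gv p Z i a d) c = Fv z Z i a d c := by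
  have h1 : Gv p Z i a d = Z' *ᵥ Fv z Z i a d := by
    funext b
    rw [← zF, Gv_eq, h, Matrix.mul_assoc (Z * _), mul_eq_one_comm.1 hZ, Matrix.mul_one]
  rw [h1, Matrix.mulVec_mulVec, hZ, Matrix.one_mulVec]

lemma of_bil (Z Z' : Matrix ι ι ℂ) (hZ : Z * Z' = 1)
    (h : ∀ i a d c, (Z *ᵥ Gv p Z i a d) c = Fv z Z i a d c) (x : Matrix ι ι ℂ) :
    z (Z * x * Z') = Z * p x * Z' := by
  have h1 : ∀ a b, z (Z * single a b 1 * Z') * Z = Z * p (single a b 1) := by
    intro a b
    ext i d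
    have h2 : Z *ᵥ Gv p Z i a d = Fv z Z i a d := funext fun c => h i a d c
    rw [zF, ← Gv_eq, ← h2, Matrix.mulVec_mulVec, mul_eq_one_comm.1 hZ, Matrix.one_mulVec]
  have h2 : ∀ a b, z (Z * single a b 1 * Z') = Z * p (single a b 1) * Z' := by
    intro a b
    rw [← h1, Matrix.mul_assoc (z _), hZ, Matrix.mul_one]
  have h3 : z (Z * x * Z') = ∑ a, ∑ b, x a b • z (Z * single a b 1 * Z') := by
    conv_lhs => rw [matrix_eq_sum_single x]
    rw [Finset.mul_sum, Finset.sum_mul, map_sum]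
    refine Finset.sum_congr rfl fun a _ => ?_
    rw [Finset.mul_sum, Finset.sum_mul, map_sum]
    refine Finset.sum_congr rfl fun b _ => ?_
    have h4 : single a b (x a b) = x a b • single a b (1 : ℂ) := by
      rw [smul_single, smul_eq_mul, mul_one]
    rw [h4, Matrix.mul_smul, Matrix.smul_mul, map_smul]
  rw [h3, lin_expand p x, Finset.mul_sum, Finset.sum_mul]
  refine Finset.sum_congr rfl fun a _ => ?_
  rw [Finset.mul_sum, Finset.sum_mul]
  refine Finset.sum_congr rfl fun b _ => ?_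
  rw [h2, Matrix.mul_smul, Matrix.smul_mul]

end bil

section pol

open MvPolynomial

variable {K : IntermediateField ℚ ℂ}

/-- The quadratic polynomial. -/
noncomputable def qp (u : ι → ι → ι → ι → K) (w : ι → ι → ι → ι → K) (i a d c : ι) :
    MvPolynomial (ι × ι) K :=
  (∑ b, ∑ q, C (u a b q d) * (X (c, b) * X (i, q))) -
    ∑ k, ∑ j, C (w j c i k) * (X (j, a) * X (k, d))

lemma deg_qp (u : ι → ι → ι → ι → K) (w : ι → ι → ι → ι → K) (i a d c : ι) :
    (qp u w i a d c).totalDegree ≤ 2 := by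
  have h : ∀ (e : K) (r s : ι × ι), (C e * (X r * X s) : MvPolynomial (ι × ι) K).totalDegree ≤ 2 := by
    intro e r s
    refine (totalDegree_mul _ _).trans ?_
    rw [totalDegree_C, zero_add]
    refine (totalDegree_mul _ _).trans ?_
    rw [totalDegree_X, totalDegree_X]
  refine (totalDegree_sub _ _).trans (max_le ?_ ?_)
  · exact totalDegree_finsetSum_le fun b _ => totalDegree_finsetSum_le fun q _ => h _ _ _
  · exact totalDegree_finsetSum_le fun b _ => totalDegree_finsetSum_le fun q _ => h _ _ _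

lemma aeval_qp (p z : Matrix ι ι ℂ →ₗ[ℂ] Matrix ι ι ℂ) (u : ι → ι → ι → ι → K)
    (w : ι → ι → ι → ι → K) (hu : ∀ a b q d, p (single a b 1) q d = u a b q d)
    (hw : ∀ j l i k, z (single j l 1) i k = w j l i k) (Z : Matrix ι ι ℂ) (i a d c : ι) :
    aeval (fun r => Z r.1 r.2) (qp u w i a d c) =
      (Z *ᵥ Gv p Z i a d) c - Fv z Z i a d c := by
  rw [qp, map_sub, map_sum, map_sum, Matrix.mulVec, dotProduct, Fv]
  congr 1
  · refine Finset.sum_congr rfl fun b _ => ?_
    rw [map_sum, Gv, Finset.mul_sum]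
    refine Finset.sum_congr rfl fun q _ => ?_
    rw [map_mul, map_mul, aeval_X, aeval_X, algHom_C, hu]
    rw [show (algebraMap K ℂ) (u a b q d) = (u a b q d : ℂ) from rfl]
    ring
  · refine Finset.sum_congr rfl fun k _ => ?_
    rw [map_sum]
    refine Finset.sum_congr rfl fun j _ => ?_
    rw [map_mul, map_mul, aeval_X, aeval_X, algHom_C, hw]
    rfl

/-- The linear polynomial. -/
noncomputable def lp (x y : ι → ι → K) (i j : ι) : MvPolynomial (ι × ι) K :=
  (∑ k, C (x k j) * X (i, k)) - ∑ k, C (y i k) * X (k, j)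

lemma deg_lp (x y : ι → ι → K) (i j : ι) : (lp x y i j).totalDegree ≤ 1 := by
  have h : ∀ (e : K) (r : ι × ι), (C e * X r : MvPolynomial (ι × ι) K).totalDegree ≤ 1 := by
    intro e r
    refine (totalDegree_mul _ _).trans ?_
    rw [totalDegree_C, totalDegree_X, zero_add]
  exact (totalDegree_sub _ _).trans (max_le (totalDegree_finsetSum_le fun b _ => h _ _)
    (totalDegree_finsetSum_le fun b _ => h _ _))

lemma aeval_lp (x y : ι → ι → K) (X' Y' Z : Matrix ι ι ℂ) (hx : ∀ i j, X' i j = x i j)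
    (hy : ∀ i j, Y' i j = y i j) (i j : ι) :
    aeval (fun r => Z r.1 r.2) (lp x y i j) = (Z * X' - Y' * Z) i j := by
  rw [lp, map_sub, map_sum, map_sum, Matrix.sub_apply, Matrix.mul_apply, Matrix.mul_apply]
  congr 1
  · refine Finset.sum_congr rfl fun k _ => ?_
    rw [map_mul, aeval_X, algHom_C, hx, mul_comm]
    rfl
  · refine Finset.sum_congr rfl fun k _ => ?_
    rw [map_mul, aeval_X, algHom_C, hy]
    rfl

end pol

end Pool.Agent.N202.QD
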