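import Pool.Agent.N202.CF.Defs

/-!
# De Rham–Betti structures over a field `K`: definitions

In the intended use `V = H^j(X_s, ℚ)` for a fibre `X_s` of a family, with a basis indexed by `ι`, `K`
is a field of algebraic numbers over which `X_s` is defined, and `P` is the period matrix: the matrix
of the comparison isomorphism `V ⊗ ℂ ≅ H^j_dR(X_s / K) ⊗ ℂ` with respect to the basis of `V` and a
`K`-basis of `H^j_dR(X_s / K)`.
-/

namespace Pool.Agent.N202.QD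

open Matrix
open Pool.Agent.N202.CF (Tensor inL act matL der IsComb)

variable {ι : Type} [Fintype ι] [DecidableEq ι]

/-- The action of the matrix `g` on `V ⊕ V^∨`. -/
noncomputable def dbl {L : Type} [Field L] (g : Matrix ι ι L) : Matrix (ι ⊕ ι) (ι ⊕ ι) L :=
  fromBlocks g 0 0 (g⁻¹)ᵀ

/-- The action of the element `x` of the Lie algebra `End V` on `V ⊕ V^∨`. -/
def lieDbl {L : Type} [Field L] (x : Matrix ι ι L) : Matrix (ι ⊕ ι) (ι ⊕ ι) L :=
  fromBlocks x 0 0 (-xᵀ)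

variable (K : IntermediateField ℚ ℂ) (P : Matrix ι ι ℂ)

/-- The rational tensor `t` of degree `n` of `V ⊕ V^∨` (for example an element of a mixed tensor
power `V^(⊗ a) ⊗ (V^∨)^(⊗ b)`, `a + b = n`) is, up to a Tate twist, a de Rham–Betti class over `K`:
its image in the de Rham side has coordinates in `K`, after multiplication by a complex number `c`
(`c = (2πi)^m` for the twist by `m`, but all `c ≠ 0` are allowed). -/
def IsClass {n : ℕ} (t : Tensor (ι ⊕ ι) n ℚ) : Prop :=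
  ∃ c : ℂ, c ≠ 0 ∧ ∀ v, c * act (dbl P) (inL ℂ t) v ∈ K

/-- The subspace `W` of `End V` is a de Rham–Betti substructure of `End V` over `K`: its image in the
de Rham side is defined over `K`. -/
def IsSubEnd (W : Submodule ℚ (Matrix ι ι ℚ)) : Prop :=
  ∃ T : Set (Matrix ι ι ℂ), (∀ m ∈ T, ∀ i j, m i j ∈ K) ∧
    Submodule.span ℂ {m | ∃ x ∈ W, m = P * matL ℂ x * P⁻¹} = Submodule.span ℂ T

/-- The space `W` of rational tensors of degree `n` of `V ⊕ V^∨` is a de Rham–Betti substructure over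
`K` of the tensor power `(V ⊕ V^∨)^(⊗ n)`. -/
def IsSub {n : ℕ} (W : Submodule ℚ (Tensor (ι ⊕ ι) n ℚ)) : Prop :=
  ∃ T : Set (Tensor (ι ⊕ ι) n ℂ), (∀ t ∈ T, ∀ v, t v ∈ K) ∧
    Submodule.span ℂ {t | ∃ w ∈ W, t = act (dbl P) (inL ℂ w)} = Submodule.span ℂ T

/-- The de Rham–Betti structure `End V` over `K` is semisimple. -/
def EndSemisimple : Prop :=
  ∀ W, IsSubEnd K P W → ∃ W', IsSubEnd K P W' ∧ IsCompl W W'

/-- The endomorphisms of the de Rham–Betti structure `V` over the field of all algebraic numbers are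
endomorphisms over `K`. -/
def EndOver : Prop :=
  ∀ x : Matrix ι ι ℚ, (∀ i j, IsAlgebraic ℚ ((P * matL ℂ x * P⁻¹) i j)) →
    ∀ i j, (P * matL ℂ x * P⁻¹) i j ∈ K

/-- There is a nondegenerate bilinear form on `V`, rational and, up to a complex factor `c`, defined
over `K` on the de Rham side (for example a polarisation). -/
def IsPolarised : Prop :=
  ∃ (ψ : Matrix ι ι ℚ) (q : Matrix ι ι ℂ) (c : ℂ), ψ.det ≠ 0 ∧ c ≠ 0 ∧ (∀ i j, q i j ∈ K) ∧
    Pᵀ * q * P = c • matL ℂ ψ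

/-- All polynomial relations over `K` of degree at most `δ` between the entries of `P` hold for
all matrices in the set `B`. -/
def NoNewRelations (B : Set (Matrix ι ι ℂ)) (δ : ℕ) : Prop :=
  ∀ f : MvPolynomial (ι × ι) K, f.totalDegree ≤ δ →
    MvPolynomial.aeval (fun p => P p.1 p.2) f = 0 →
      ∀ Z ∈ B, MvPolynomial.aeval (fun p => Z p.1 p.2) f = 0

/-- `𝔥` is a Lie algebra of matrices equal to its derived algebra (for example a semisimple Lie
algebra), and the set `B` is stable under the group with the Lie algebra `𝔥`. -/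
structure IsMonodromy (B : Set (Matrix ι ι ℂ)) (𝔥 : Submodule ℂ (Matrix ι ι ℂ)) : Prop where
  perfect : 𝔥 = Submodule.span ℂ {m | ∃ x ∈ 𝔥, ∃ y ∈ 𝔥, m = x * y - y * x}
  stable : ∀ Z ∈ B, ∀ y ∈ 𝔥, Z * NormedSpace.exp y ∈ B

/-- The element `y` of the Lie algebra `End V ⊗ ℂ` stabilises all de Rham–Betti substructures over
`K` of the tensor powers of `V ⊕ V^∨`, and kills all their de Rham–Betti classes over `K` (up to Tate
twists). -/
def Fixes (y : Matrix ι ι ℂ) : Prop :=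
  (∀ (n : ℕ) (W : Submodule ℚ (Tensor (ι ⊕ ι) n ℚ)), IsSub K P W →
    ∀ w ∈ W, IsComb (W : Set (Tensor (ι ⊕ ι) n ℚ)) (der (lieDbl y) (inL ℂ w))) ∧
  ∀ (n : ℕ) (t : Tensor (ι ⊕ ι) n ℚ), IsClass K P t → der (lieDbl y) (inL ℂ t) = 0

/-- The space `𝔞` is an ideal of the Lie algebra `𝔤` of rational matrices. -/
def IsIdeal (𝔞 𝔤 : Submodule ℚ (Matrix ι ι ℚ)) : Prop :=
  𝔞 ≤ 𝔤 ∧ ∀ x ∈ 𝔤, ∀ y ∈ 𝔞, x * y - y * x ∈ 𝔞

/-- The space `𝔤` is a semisimple Lie algebra of rational matrices. -/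
structure IsSemisimple (𝔤 : Submodule ℚ (Matrix ι ι ℚ)) : Prop where
  bracket : IsIdeal 𝔤 𝔤
  perfect : 𝔤 ≤ Submodule.span ℚ {m | ∃ x ∈ 𝔤, ∃ y ∈ 𝔤, m = x * y - y * x}
  compl : ∀ 𝔞, IsIdeal 𝔞 𝔤 → ∃ 𝔟, IsIdeal 𝔟 𝔤 ∧ 𝔞 ⊓ 𝔟 = ⊥ ∧ 𝔞 ⊔ 𝔟 = 𝔤

end Pool.Agent.N202.QD
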