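import Pool.Agent.N202.QD.Fun

/-!
# Relations of degree `n`
-/

set_option linter.unusedSectionVars false

namespace Pool.Agent.N202.QD

open Matrix MvPolynomial
open Pool.Agent.N202.CF (matL)

variable {ι : Type} [Fintype ι] [DecidableEq ι]

/-- The degree of a determinant. -/
lemma deg_det {σ R : Type} [CommRing R] (M : Matrix ι ι (MvPolynomial σ R)) (d : ι → ℕ)
    (h : ∀ i j, (M i j).totalDegree ≤ d i) : M.det.totalDegree ≤ ∑ i, d i := by
  rw [Matrix.det_apply]
  refine totalDegree_finsetSum_le fun s _ => ?_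
  have h1 : (∏ i, M (s i) i).totalDegree ≤ ∑ i, d i := by
    refine (totalDegree_finsetProd _ _).trans ?_
    refine (Finset.sum_le_sum fun i _ => h (s i) i).trans ?_
    rw [Equiv.sum_comp s d]
  rcases Int.units_eq_one_or (Equiv.Perm.sign s) with h2 | h2
  · rw [h2, one_smul]
    exact h1
  · rw [h2, Units.neg_smul, one_smul, totalDegree_neg]
    exact h1

variable {K : IntermediateField ℚ ℂ}

variable (ι K) in
/-- The matrix of the variables. -/
noncomputable def mX : Matrix ι ι (MvPolynomial (ι × ι) K) := Matrix.of fun i j => X (i, j)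

lemma deg_mX (i j : ι) : (mX ι K i j).totalDegree ≤ 1 := by
  rw [mX, Matrix.of_apply, totalDegree_X]

lemma deg_detX : (mX ι K).det.totalDegree ≤ Fintype.card ι := by
  refine (deg_det _ (fun _ => 1) deg_mX).trans ?_
  simp

lemma deg_adj (i j : ι) : ((mX ι K).adjugate i j).totalDegree + 1 ≤ Fintype.card ι := by
  rw [Matrix.adjugate_apply]
  have h := deg_det ((mX ι K).updateRow j (Pi.single i 1))
    (fun k => if k = j then 0 else 1) fun a b => by
      by_cases ha : a = j
      · subst ha
        rw [Matrix.updateRow_self, if_pos rfl]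
        by_cases hb : b = i
        · subst hb
          rw [Pi.single_eq_same, totalDegree_one]
        · rw [Pi.single_eq_of_ne hb, totalDegree_zero]
      · rw [Matrix.updateRow_ne ha, if_neg ha]
        exact deg_mX _ _
  have h2 : ∑ k : ι, (if k = j then 0 else 1) + 1 = Fintype.card ι := by
    have h3 : ∀ k : ι, (if k = j then 0 else 1) = 1 - (if k = j then 1 else 0 : ℕ) := by
      intro k
      split_ifs <;> rfl
    have h4 : ∑ k : ι, ((if k = j then 0 else 1) + (if k = j then 1 else 0 : ℕ)) =
        Fintype.card ι := by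
      rw [Fintype.card_eq_sum_ones]
      refine Finset.sum_congr rfl fun k _ => ?_
      split_ifs <;> rfl
    rw [Finset.sum_add_distrib, Finset.sum_ite_eq' Finset.univ j, if_pos (Finset.mem_univ j)] at h4
    exact h4
  omega

/-- The matrix `x` with constant polynomials as entries. -/
noncomputable def cX (K : IntermediateField ℚ ℂ) (x : Matrix ι ι ℚ) :
    Matrix ι ι (MvPolynomial (ι × ι) K) := x.map fun r => C (algebraMap ℚ K r)

/-- The polynomial `∑ f_ij (X x adj(X))_ij - c det X`. -/
noncomputable def ap (f : ι → ι → K) (x : Matrix ι ι ℚ) (c : K) : MvPolynomial (ι × ι) K :=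
  (∑ i, ∑ j, C (f i j) * (mX ι K * cX K x * (mX ι K).adjugate) i j) -
    C c * (mX ι K).det

lemma deg_ap (f : ι → ι → K) (x : Matrix ι ι ℚ) (c : K) :
    (ap f x c).totalDegree ≤ Fintype.card ι := by
  refine (totalDegree_sub _ _).trans (max_le ?_ ?_)
  · refine totalDegree_finsetSum_le fun i _ => totalDegree_finsetSum_le fun j _ => ?_
    refine (totalDegree_mul _ _).trans ?_
    rw [totalDegree_C, zero_add, Matrix.mul_apply]
    refine totalDegree_finsetSum_le fun k _ => ?_
    refine (totalDegree_mul _ _).trans ?_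
    have h1 : ((mX ι K * cX K x) i k).totalDegree ≤ 1 := by
      rw [Matrix.mul_apply]
      refine totalDegree_finsetSum_le fun l _ => ?_
      refine (totalDegree_mul _ _).trans ?_
      rw [cX, Matrix.map_apply, totalDegree_C, add_zero]
      exact deg_mX _ _
    have h2 := deg_adj (K := K) k j
    omega
  · refine (totalDegree_mul _ _).trans ?_
    rw [totalDegree_C, zero_add]
    exact deg_detX

lemma aeval_mX (Z : Matrix ι ι ℂ) :
    (mX ι K).map (aeval fun r => Z r.1 r.2 : MvPolynomial (ι × ι) K →ₐ[K] ℂ) = Z := by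
  ext i j
  rw [Matrix.map_apply, mX, Matrix.of_apply, aeval_X]

lemma aeval_ap (f : ι → ι → K) (x : Matrix ι ι ℚ) (c : K) (Z : Matrix ι ι ℂ) :
    aeval (fun r => Z r.1 r.2) (ap f x c) =
      (∑ i, ∑ j, (f i j : ℂ) * (Z * matL ℂ x * Z.adjugate) i j) - c * Z.det := by
  have hd : aeval (fun r : ι × ι => Z r.1 r.2) (mX ι K).det = Z.det := by
    have h := AlgHom.map_det (aeval fun r : ι × ι => Z r.1 r.2) (mX ι K)
    rw [h]
    congr 1
    exact aeval_mX Z
  have ha : ∀ i j, aeval (fun r : ι × ι => Z r.1 r.2) ((mX ι K).adjugate i j) =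
      Z.adjugate i j := by
    intro i j
    have h := AlgHom.map_adjugate (aeval fun r : ι × ι => Z r.1 r.2) (mX ι K)
    have h2 := congrFun (congrFun h i) j
    have h3 : (aeval fun r : ι × ι => Z r.1 r.2).mapMatrix (mX ι K) = Z := aeval_mX Z
    rw [h3] at h2
    exact h2
  rw [ap, map_sub, map_sum, map_mul, hd, algHom_C]
  congr 1
  refine Finset.sum_congr rfl fun i _ => ?_
  rw [map_sum]
  refine Finset.sum_congr rfl fun j _ => ?_
  rw [map_mul, algHom_C, Matrix.mul_apply, Matrix.mul_apply, map_sum]
  congr 1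
  refine Finset.sum_congr rfl fun k _ => ?_
  rw [map_mul, ha, Matrix.mul_apply, Matrix.mul_apply, map_sum]
  congr 1
  refine Finset.sum_congr rfl fun l _ => ?_
  rw [map_mul, cX, Matrix.map_apply, algHom_C, mX, Matrix.of_apply, aeval_X]
  congr 1

/-- Separation of a matrix from a space defined over `K`. -/
lemma sep {T : Set (Matrix ι ι ℂ)} (hT : ∀ m ∈ T, ∀ i j, m i j ∈ K) {u : Matrix ι ι ℂ}
    (h : ∀ f : ι → ι → K, (∀ m ∈ T, ∑ i, ∑ j, (f i j : ℂ) * m i j = 0) →
      ∑ i, ∑ j, (f i j : ℂ) * u i j = 0) : u ∈ Submodule.span ℂ T := by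
  refine mem_of_cm (K := K) fun lam => ?_
  set TK : Set (Matrix ι ι K) := {m | m.map (algebraMap K ℂ) ∈ T} with hTK
  have h1 : u.map lam ∈ Submodule.span K TK := by
    rw [← Subspace.forall_mem_dualAnnihilator_apply_eq_zero_iff]
    intro φ hφ
    rw [Submodule.mem_dualAnnihilator] at hφ
    have hexp : ∀ m : Matrix ι ι K, φ m = ∑ i, ∑ j, φ (single i j 1) * m i j := by
      intro m
      conv_lhs => rw [matrix_eq_sum_single m]
      rw [map_sum]
      refine Finset.sum_congr rfl fun i _ => ?_
      rw [map_sum]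
      refine Finset.sum_congr rfl fun j _ => ?_
      have h4 : single i j (m i j) = m i j • single i j (1 : K) := by
        rw [smul_single, smul_eq_mul, mul_one]
      rw [h4, map_smul, smul_eq_mul, mul_comm]
    have h2 := h (fun i j => φ (single i j 1)) fun m hm => by
      have h3 : ∃ mK : Matrix ι ι K, mK.map (algebraMap K ℂ) = m :=
        ⟨fun i j => ⟨m i j, hT m hm i j⟩, by ext i j; rfl⟩
      obtain ⟨mK, rfl⟩ := h3
      have h4 := hφ mK (Submodule.subset_span hm)
      rw [hexp] at h4
      have h5 := congrArg (algebraMap K ℂ) h4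
      rw [map_zero, map_sum] at h5
      rw [← h5]
      refine Finset.sum_congr rfl fun i _ => ?_
      rw [map_sum]
      refine Finset.sum_congr rfl fun j _ => ?_
      rw [map_mul]
      rfl
    rw [hexp]
    have h6 := congrArg lam h2
    rw [map_zero, map_sum] at h6
    rw [← h6]
    refine Finset.sum_congr rfl fun i _ => ?_
    rw [map_sum]
    refine Finset.sum_congr rfl fun j _ => ?_
    exact (lam_mul lam _ _).symm
  have h2 : ∀ m ∈ Submodule.span K TK, m.map (algebraMap K ℂ) ∈ Submodule.span ℂ T := by
    intro m hm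
    induction hm using Submodule.span_induction with
    | mem x hx => exact Submodule.subset_span hx
    | zero =>
      have h3 : (0 : Matrix ι ι K).map (algebraMap K ℂ) = 0 := by
        ext i j
        simp
      rw [h3]
      exact Submodule.zero_mem _
    | add a b _ _ ha hb =>
      have h3 : (a + b).map (algebraMap K ℂ) = a.map (algebraMap K ℂ) + b.map (algebraMap K ℂ) := by
        ext i j
        simp
      rw [h3]
      exact Submodule.add_mem _ ha hb
    | smul c a _ ha =>
      have h3 : (c • a).map (algebraMap K ℂ) = algebraMap K ℂ c • a.map (algebraMap K ℂ) := by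
        ext i j
        simp
      rw [h3]
      exact Submodule.smul_mem _ _ ha
  exact h2 _ h1

end Pool.Agent.N202.QD
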