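import Pool.Agent.N202.QD.Defs

/-!
# The derivative of the conjugation with exponentials
-/

set_option linter.unusedSectionVars false

namespace Pool.Agent.N202.QD

open Matrix

variable {ι : Type} [Fintype ι] [DecidableEq ι]

lemma exp_inv' (y : Matrix ι ι ℂ) : NormedSpace.exp y * NormedSpace.exp (-y) = 1 := by
  rw [← Matrix.exp_add_of_commute _ _ (Commute.neg_right (Commute.refl y)), add_neg_cancel,
    NormedSpace.exp_zero]

section norm

attribute [local instance] Matrix.linftyOpNormedRing Matrix.linftyOpNormedAlgebra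

lemma hasDeriv_conj (x y : Matrix ι ι ℂ) :
    HasDerivAt (fun t : ℂ => NormedSpace.exp (t • y) * x * NormedSpace.exp (-(t • y)))
      (y * x - x * y) 0 := by
  have h1 := hasDerivAt_exp_smul_const (𝕂 := ℂ) y (0 : ℂ)
  have h2 := hasDerivAt_exp_smul_const (𝕂 := ℂ) (-y) (0 : ℂ)
  have h3 := (h1.mul_const x).mul h2
  simp only [zero_smul, NormedSpace.exp_zero, Matrix.one_mul, Matrix.mul_one, smul_neg, neg_zero]
    at h3
  refine h3.congr_deriv ?_
  rw [Matrix.mul_neg, sub_eq_add_neg]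

lemma deriv_lin (p : Matrix ι ι ℂ →ₗ[ℂ] Matrix ι ι ℂ) (x x' y : Matrix ι ι ℂ)
    (h : ∀ t : ℂ, p (NormedSpace.exp (t • y) * x * NormedSpace.exp (-(t • y))) =
      NormedSpace.exp (t • y) * x' * NormedSpace.exp (-(t • y))) :
    p (y * x - x * y) = y * x' - x' * y := by
  have h1 : HasDerivAt (fun t : ℂ => p (NormedSpace.exp (t • y) * x * NormedSpace.exp (-(t • y))))
      (p (y * x - x * y)) 0 :=
    (LinearMap.toContinuousLinearMap p).hasFDerivAt.comp_hasDerivAt (0 : ℂ) (hasDeriv_conj x y)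
  have h2 := hasDeriv_conj x' y
  have h3 : (fun t : ℂ => p (NormedSpace.exp (t • y) * x * NormedSpace.exp (-(t • y)))) =
      fun t : ℂ => NormedSpace.exp (t • y) * x' * NormedSpace.exp (-(t • y)) := funext h
  rw [h3] at h1
  exact h1.unique h2

lemma deriv_fix' (x y : Matrix ι ι ℂ)
    (h : ∀ t : ℂ, NormedSpace.exp (t • y) * x * NormedSpace.exp (-(t • y)) = x) :
    y * x - x * y = 0 := by
  have h2 := hasDeriv_conj x y
  have h3 : (fun t : ℂ => NormedSpace.exp (t • y) * x * NormedSpace.exp (-(t • y))) =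
      fun _ : ℂ => x := funext h
  rw [h3] at h2
  exact h2.unique (hasDerivAt_const (0 : ℂ) x)

lemma deriv_const' (φ : Matrix ι ι ℂ →ₗ[ℂ] ℂ) (x y : Matrix ι ι ℂ) (c : ℂ)
    (h : ∀ t : ℂ, φ (NormedSpace.exp (t • y) * x * NormedSpace.exp (-(t • y))) = c) :
    φ (y * x - x * y) = 0 := by
  have h1 : HasDerivAt (fun t : ℂ => φ (NormedSpace.exp (t • y) * x * NormedSpace.exp (-(t • y))))
      (φ (y * x - x * y)) 0 :=
    (LinearMap.toContinuousLinearMap φ).hasFDerivAt.comp_hasDerivAt (0 : ℂ) (hasDeriv_conj x y)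
  have h3 : (fun t : ℂ => φ (NormedSpace.exp (t • y) * x * NormedSpace.exp (-(t • y)))) =
      fun _ : ℂ => c := funext h
  rw [h3] at h1
  exact h1.unique (hasDerivAt_const (0 : ℂ) c)

end norm

/-- The derivative of an equation between conjugates. -/
lemma deriv_conj (p : Matrix ι ι ℂ →ₗ[ℂ] Matrix ι ι ℂ) (x x' y : Matrix ι ι ℂ)
    (h : ∀ t : ℂ, p (NormedSpace.exp (t • y) * x * NormedSpace.exp (-(t • y))) =
      NormedSpace.exp (t • y) * x' * NormedSpace.exp (-(t • y))) :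
    p (y * x - x * y) = y * x' - x' * y := deriv_lin p x x' y h

lemma deriv_fix (x y : Matrix ι ι ℂ)
    (h : ∀ t : ℂ, NormedSpace.exp (t • y) * x * NormedSpace.exp (-(t • y)) = x) :
    y * x - x * y = 0 := deriv_fix' x y h

lemma deriv_const (φ : Matrix ι ι ℂ →ₗ[ℂ] ℂ) (x y : Matrix ι ι ℂ) (c : ℂ)
    (h : ∀ t : ℂ, φ (NormedSpace.exp (t • y) * x * NormedSpace.exp (-(t • y))) = c) :
    φ (y * x - x * y) = 0 := deriv_const' φ x y c h

end Pool.Agent.N202.QD
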