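import Pool.Agent.N202.QD.Defs
import Pool.Agent.N202.NC.DRB

/-!
# Components with respect to linear functionals
-/

set_option linter.unusedSectionVars false

namespace Pool.Agent.N202.QD

open Matrix
open Pool.Agent.N202.CF (Tensor inL act matL der)

variable {ι : Type} [Fintype ι] [DecidableEq ι]

section gen

variable {K : Type} [Field K] [Algebra K ℂ]

/-- The component of a matrix with respect to the functional. -/
def cm (lam : ℂ →ₗ[K] K) (u : Matrix ι ι ℂ) : Matrix ι ι ℂ := u.map fun z => algebraMap K ℂ (lam z)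

lemma lam_mul (lam : ℂ →ₗ[K] K) (a : K) (z : ℂ) : lam (algebraMap K ℂ a * z) = a * lam z := by
  rw [← Algebra.smul_def, map_smul, smul_eq_mul]

lemma exists_fam {κ : Type} [Fintype κ] (u : κ → ℂ) :
    ∃ (J : Type) (S : Finset J) (b : J → ℂ) (lam : J → ℂ →ₗ[K] K),
      ∀ i, u i = ∑ j ∈ S, b j * algebraMap K ℂ (lam j (u i)) := by
  classical
  let b := Module.Basis.ofVectorSpace K ℂ
  refine ⟨_, Finset.univ.biUnion fun i => (b.repr (u i)).support, b, fun j => b.coord j, fun i => ?_⟩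
  have h1 := b.linearCombination_repr (u i)
  rw [Finsupp.linearCombination_apply, Finsupp.sum] at h1
  rw [← Finset.sum_subset (s₁ := (b.repr (u i)).support)
    (Finset.subset_biUnion_of_mem (fun i => (b.repr (u i)).support) (Finset.mem_univ i))]
  · conv_lhs => rw [← h1]
    refine Finset.sum_congr rfl fun j _ => ?_
    rw [Algebra.smul_def, mul_comm, Module.Basis.coord_apply]
  · intro j _ hj
    rw [Finsupp.notMem_support_iff] at hj
    rw [Module.Basis.coord_apply, hj, map_zero, mul_zero]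

/-- A matrix is a combination of its components. -/
lemma mem_cm (u : Matrix ι ι ℂ) :
    u ∈ Submodule.span ℂ {m | ∃ lam : ℂ →ₗ[K] K, m = cm lam u} := by
  obtain ⟨J, S, b, lam, h⟩ := exists_fam (K := K) (fun p : ι × ι => u p.1 p.2)
  have h1 : u = ∑ j ∈ S, b j • cm (lam j) u := by
    ext i k
    rw [Matrix.sum_apply]
    simp only [Matrix.smul_apply, smul_eq_mul, cm, Matrix.map_apply]
    exact h (i, k)
  rw [h1]
  refine Submodule.sum_mem _ fun j _ => Submodule.smul_mem _ _ (Submodule.subset_span ⟨lam j, ?_⟩)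
  rw [← h1]

/-- A matrix whose components are in a space is in this space. -/
lemma mem_of_cm {u : Matrix ι ι ℂ} {S : Submodule ℂ (Matrix ι ι ℂ)}
    (h : ∀ lam : ℂ →ₗ[K] K, cm lam u ∈ S) : u ∈ S := by
  refine Submodule.span_le.2 ?_ (mem_cm (K := K) u)
  rintro _ ⟨lam, rfl⟩
  exact h lam

/-- The components of combinations of `K`-rational matrices. -/
lemma cm_mem {T : Set (Matrix ι ι ℂ)} (hT : ∀ m ∈ T, ∀ i j, ∃ a : K, m i j = algebraMap K ℂ a)
    {u : Matrix ι ι ℂ} (hu : u ∈ Submodule.span ℂ T) :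
    ∀ lam : ℂ →ₗ[K] K, cm lam u ∈ Submodule.span ℂ T := by
  induction hu using Submodule.span_induction with
  | mem m hm =>
    intro lam
    have h1 : cm lam m = algebraMap K ℂ (lam 1) • m := by
      ext i j
      obtain ⟨a, ha⟩ := hT m hm i j
      have h2 := lam_mul lam a 1
      rw [mul_one] at h2
      rw [cm, Matrix.map_apply, Matrix.smul_apply, smul_eq_mul, ha, h2, map_mul, mul_comm]
    rw [h1]
    exact Submodule.smul_mem _ _ (Submodule.subset_span hm)
  | zero =>
    intro lam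
    have h1 : cm lam (0 : Matrix ι ι ℂ) = 0 := by
      ext i j
      simp [cm]
    rw [h1]
    exact Submodule.zero_mem _
  | add a b _ _ ha hb =>
    intro lam
    have h1 : cm lam (a + b) = cm lam a + cm lam b := by
      ext i j
      simp [cm]
    rw [h1]
    exact Submodule.add_mem _ (ha lam) (hb lam)
  | smul c a _ ha =>
    intro lam
    have h1 : cm lam (c • a) = cm (lam ∘ₗ LinearMap.mulLeft K c) a := by
      ext i j
      simp [cm]
    rw [h1]
    exact ha _

/-- A `K`-linear functional with value one at one. -/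
lemma exists_one : ∃ lam : ℂ →ₗ[K] K, lam 1 = 1 := by
  obtain ⟨f, hf⟩ := LinearMap.exists_leftInverse_of_injective (Algebra.linearMap K ℂ)
    (LinearMap.ker_eq_bot.2 (algebraMap K ℂ).injective)
  refine ⟨f, ?_⟩
  have h := LinearMap.congr_fun hf 1
  simpa using h

lemma lam_alg {lam : ℂ →ₗ[K] K} (h : lam 1 = 1) (a : K) : lam (algebraMap K ℂ a) = a := by
  have h2 := lam_mul lam a 1
  rwa [mul_one, h, mul_one] at h2

/-- The components of the derivation. -/
lemma lam_der (lam : ℂ →ₗ[K] K) {κ : Type} [Fintype κ] [DecidableEq κ] (y : Matrix κ κ ℂ) {n : ℕ}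
    (a : Tensor κ n K) (v : Fin n → κ) :
    lam (der y (fun w => algebraMap K ℂ (a w)) v) = der (y.map lam) a v := by
  rw [der, der, map_sum]
  refine Finset.sum_congr rfl fun k _ => ?_
  rw [map_sum]
  refine Finset.sum_congr rfl fun i _ => ?_
  rw [mul_comm, lam_mul, mul_comm]
  rfl

end gen

lemma matL_eq (x : Matrix ι ι ℚ) : matL ℂ x = x.map (algebraMap ℚ ℂ) := by
  ext i j
  rw [matL, Matrix.map_apply, Matrix.map_apply, eq_ratCast]

lemma cm_rat (lam : ℂ →ₗ[ℚ] ℚ) (u : Matrix ι ι ℂ) : cm lam u = matL ℂ (u.map lam) := by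
  rw [matL_eq]
  rfl

lemma inL_eq {κ : Type} (a : κ → ℚ) : inL ℂ a = fun v => algebraMap ℚ ℂ (a v) := by
  funext v
  rw [inL, eq_ratCast]

/-- Rational components determine membership in the complexification. -/
lemma mem_span_iff (W : Submodule ℚ (Matrix ι ι ℚ)) (u : Matrix ι ι ℂ) :
    u ∈ Submodule.span ℂ {m | ∃ x ∈ W, m = matL ℂ x} ↔ ∀ lam : ℂ →ₗ[ℚ] ℚ, u.map lam ∈ W := by
  refine ⟨fun h => NC.map_mem h, fun h => mem_of_cm (K := ℚ) fun lam => ?_⟩
  rw [cm_rat]
  exact Submodule.subset_span ⟨_, h lam, rfl⟩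

section dbl

variable {L : Type} [Field L]

lemma lieDbl_add (x y : Matrix ι ι L) : lieDbl (x + y) = lieDbl x + lieDbl y := by
  rw [lieDbl, lieDbl, lieDbl, fromBlocks_add, add_zero, transpose_add, neg_add]

lemma lieDbl_smul (c : L) (x : Matrix ι ι L) : lieDbl (c • x) = c • lieDbl x := by
  rw [lieDbl, lieDbl, fromBlocks_smul, smul_zero, transpose_smul, smul_neg]

lemma lieDbl_bracket (x y : Matrix ι ι L) :
    lieDbl (x * y - y * x) = lieDbl x * lieDbl y - lieDbl y * lieDbl x := by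
  rw [lieDbl, lieDbl, lieDbl, fromBlocks_multiply, fromBlocks_multiply, sub_eq_add_neg (fromBlocks _ _ _ _),
    fromBlocks_neg, fromBlocks_add]
  simp only [Matrix.mul_zero, Matrix.zero_mul, add_zero, zero_add, neg_zero, transpose_sub,
    transpose_mul, neg_mul_neg, ← sub_eq_add_neg]
  congr 1
  abel

lemma lieDbl_map {M : Type} [Field M] (f : L → M) (hf : f 0 = 0) (hn : ∀ a, f (-a) = -f a)
    (x : Matrix ι ι L) : (lieDbl x).map f = lieDbl (x.map f) := by
  rw [lieDbl, lieDbl, fromBlocks_map]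
  congr 1
  · ext i j; simp [hf]
  · ext i j; simp [hf]
  · ext i j; simp [hn]

/-- The inverse of `dbl P`. -/
def dblI (P P' : Matrix ι ι L) : Matrix (ι ⊕ ι) (ι ⊕ ι) L := fromBlocks P' 0 0 Pᵀ

lemma dbl_mul_dblI {P : Matrix ι ι L} (hP : P * P⁻¹ = 1) : dbl P * dblI P P⁻¹ = 1 := by
  rw [dbl, dblI, fromBlocks_multiply]
  simp only [Matrix.mul_zero, Matrix.zero_mul, add_zero, zero_add]
  rw [hP, ← transpose_mul, hP, transpose_one, fromBlocks_one]

lemma dblI_mul_dbl {P : Matrix ι ι L} (hP : P * P⁻¹ = 1) : dblI P P⁻¹ * dbl P = 1 :=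
  mul_eq_one_comm.1 (dbl_mul_dblI hP)

lemma dbl_conj (P : Matrix ι ι L) (x : Matrix ι ι L) :
    dbl P * lieDbl x * dblI P P⁻¹ = lieDbl (P * x * P⁻¹) := by
  rw [dbl, dblI, lieDbl, lieDbl, fromBlocks_multiply, fromBlocks_multiply]
  simp only [Matrix.mul_zero, Matrix.zero_mul, add_zero, zero_add]
  congr 1
  rw [transpose_mul, transpose_mul, Matrix.mul_neg, Matrix.neg_mul, Matrix.mul_assoc]

end dbl

lemma dbl_D {P : Matrix ι ι ℂ} (hP : P * P⁻¹ = 1) (D : Derivation ℚ ℂ ℂ) :
    dblI P P⁻¹ * (dbl P).map D = lieDbl (P⁻¹ * P.map D) := by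
  have h1 : (P⁻¹).map D = -(P⁻¹ * P.map D * P⁻¹) := by
    have h2 := NC.map_D_mul D P P⁻¹
    have h3 : (1 : Matrix ι ι ℂ).map D = 0 := by
      have h4 := NC.map_D_rat D (1 : Matrix ι ι ℚ)
      rwa [Pool.Agent.N202.CF.matL_one] at h4
    rw [hP, h3] at h2
    have h4 : P * (P⁻¹).map D = -(P.map D * P⁻¹) := (eq_neg_of_add_eq_zero_right h2.symm)
    have h5 := congrArg (fun M => P⁻¹ * M) h4
    simp only [← Matrix.mul_assoc, mul_eq_one_comm.1 hP, Matrix.one_mul, Matrix.mul_neg] at h5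
    exact h5
  rw [dblI, dbl, fromBlocks_map, fromBlocks_multiply, lieDbl]
  have h0 : (0 : Matrix ι ι ℂ).map D = 0 := by
    ext i j
    simp
  simp only [h0, Matrix.mul_zero, Matrix.zero_mul, add_zero, zero_add]
  congr 1
  rw [transpose_map, h1, transpose_neg, Matrix.mul_neg, ← transpose_mul,
    Matrix.mul_assoc _ P⁻¹ P, mul_eq_one_comm.1 hP, Matrix.mul_one]

end Pool.Agent.N202.QD
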