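import Pool.Agent.N202.QD.Fun
import Pool.Agent.N202.NC.MainD

/-!
# The Lie algebra which stabilises the lines of the de Rham–Betti classes
-/

set_option linter.unusedSectionVars false

namespace Pool.Agent.N202.QD

open Matrix
open Pool.Agent.N202.CF (Tensor inL act matL der der_eq act_eq der_add_left der_smul_left)
open Pool.Agent.N202.TB Pool.Agent.N996.BP

variable {ι : Type} [Fintype ι] [DecidableEq ι]

section misc

variable {κ : Type} [Fintype κ] [DecidableEq κ]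

lemma der_up {K L : Type} [Field K] [Field L] (f : K →+* L) (y : Matrix κ κ K) {n : ℕ}
    (t : Tensor κ n K) : der (y.map f) (fun w => f (t w)) = fun v => f (der y t v) := by
  funext v
  rw [der, der, map_sum]
  refine Finset.sum_congr rfl fun k _ => ?_
  rw [map_sum]
  refine Finset.sum_congr rfl fun i _ => ?_
  rw [map_mul]
  rfl

lemma der_smul_right {L : Type} [Field L] (c : L) (y : Matrix κ κ L) {n : ℕ} (t : Tensor κ n L) :
    der y (c • t) = c • der y t := by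
  rw [der_eq, der_eq, Matrix.mulVec_smul]

lemma der_conj' {L : Type} [Field L] [CharZero L] {e e' : Matrix κ κ L} (he : e * e' = 1)
    (y : Matrix κ κ L) {n : ℕ} (t : Tensor κ n L) : der (e * y * e') (act e t) = act e (der y t) := by
  have h := NC.der_conj (e := e') (e' := e) he y (act e t)
  rw [h, NC.act_act, mul_eq_one_comm.1 he, NC.act_one]

end misc

variable (K : IntermediateField ℚ ℂ) (P : Matrix ι ι ℂ)

/-- The rational matrices which stabilise the lines of the classes. -/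
def dL : Submodule ℚ (Matrix ι ι ℚ) where
  carrier := {x | ∀ (n : ℕ) (t : Tensor (ι ⊕ ι) n ℚ), IsClass K P t →
    ∃ c : ℚ, der (lieDbl x) t = c • t}
  zero_mem' n t _ := ⟨0, by
    have h : lieDbl (0 : Matrix ι ι ℚ) = 0 := by
      have h1 := lieDbl_smul (0 : ℚ) (0 : Matrix ι ι ℚ)
      rwa [zero_smul, zero_smul] at h1
    rw [h, zero_smul, Pool.Agent.N202.CF.der_zero_left]⟩
  add_mem' {x y} hx hy n t ht := by
    obtain ⟨c, hc⟩ := hx n t ht
    obtain ⟨d, hd⟩ := hy n t ht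
    exact ⟨c + d, by rw [lieDbl_add, der_add_left, hc, hd, add_smul]⟩
  smul_mem' a x hx n t ht := by
    obtain ⟨c, hc⟩ := hx n t ht
    exact ⟨a * c, by rw [lieDbl_smul, der_smul_left, hc, smul_smul]⟩

/-- The complex matrices which stabilise the lines of the classes. -/
def dC : Submodule ℂ (Matrix ι ι ℂ) where
  carrier := {x | ∀ (n : ℕ) (t : Tensor (ι ⊕ ι) n ℚ), IsClass K P t →
    ∃ c : ℂ, der (lieDbl x) (inL ℂ t) = c • inL ℂ t}
  zero_mem' n t _ := ⟨0, by
    have h : lieDbl (0 : Matrix ι ι ℂ) = 0 := by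
      have h1 := lieDbl_smul (0 : ℂ) (0 : Matrix ι ι ℂ)
      rwa [zero_smul, zero_smul] at h1
    rw [h, zero_smul, Pool.Agent.N202.CF.der_zero_left]⟩
  add_mem' {x y} hx hy n t ht := by
    obtain ⟨c, hc⟩ := hx n t ht
    obtain ⟨d, hd⟩ := hy n t ht
    exact ⟨c + d, by rw [lieDbl_add, der_add_left, hc, hd, add_smul]⟩
  smul_mem' a x hx n t ht := by
    obtain ⟨c, hc⟩ := hx n t ht
    exact ⟨a * c, by rw [lieDbl_smul, der_smul_left, hc, smul_smul]⟩

variable {K P}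

lemma mem_dL {x : Matrix ι ι ℚ} : x ∈ dL K P ↔ ∀ (n : ℕ) (t : Tensor (ι ⊕ ι) n ℚ), IsClass K P t →
    ∃ c : ℚ, der (lieDbl x) t = c • t := Iff.rfl

lemma mem_dC {x : Matrix ι ι ℂ} : x ∈ dC K P ↔ ∀ (n : ℕ) (t : Tensor (ι ⊕ ι) n ℚ), IsClass K P t →
    ∃ c : ℂ, der (lieDbl x) (inL ℂ t) = c • inL ℂ t := Iff.rfl

lemma map_lieDbl_lin {F : Type} [Field F] [Algebra F ℂ] (lam : ℂ →ₗ[F] F) (x : Matrix ι ι ℂ) :
    (lieDbl x).map lam = lieDbl (x.map lam) :=
  lieDbl_map _ (map_zero lam) (fun a => map_neg lam a) x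

lemma map_lieDbl_hom {F L : Type} [Field F] [Field L] (f : F →+* L) (x : Matrix ι ι F) :
    (lieDbl x).map f = lieDbl (x.map f) :=
  lieDbl_map _ (map_zero f) (fun a => map_neg f a) x

/-- Components of an eigenvector equation. -/
lemma comp_eig {F : Type} [Field F] [Algebra F ℂ] (lam : ℂ →ₗ[F] F) {y : Matrix ι ι ℂ} {n : ℕ}
    {a : Tensor (ι ⊕ ι) n F} {c : ℂ}
    (h : der (lieDbl y) (fun w => algebraMap F ℂ (a w)) = c • fun w => algebraMap F ℂ (a w)) :
    der (lieDbl (y.map lam)) a = lam c • a := by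
  funext v
  rw [← map_lieDbl_lin, ← lam_der, h, Pi.smul_apply, Pi.smul_apply, smul_eq_mul, smul_eq_mul,
    mul_comm, lam_mul, mul_comm]

lemma up_eig {F : Type} [Field F] [Algebra F ℂ] {y : Matrix ι ι F} {n : ℕ}
    {a : Tensor (ι ⊕ ι) n F} {c : F} (h : der (lieDbl y) a = c • a) :
    der (lieDbl (y.map (algebraMap F ℂ))) (fun w => algebraMap F ℂ (a w)) =
      algebraMap F ℂ c • fun w => algebraMap F ℂ (a w) := by
  rw [← map_lieDbl_hom, der_up, h]
  funext v
  rw [Pi.smul_apply, Pi.smul_apply, smul_eq_mul, smul_eq_mul, map_mul]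

lemma dC_iff {x : Matrix ι ι ℂ} : x ∈ dC K P ↔ ∀ lam : ℂ →ₗ[ℚ] ℚ, x.map lam ∈ dL K P := by
  constructor
  · intro h lam n t ht
    obtain ⟨c, hc⟩ := h n t ht
    rw [inL_eq] at hc
    exact ⟨lam c, comp_eig lam hc⟩
  · intro h
    refine mem_of_cm (K := ℚ) fun lam n t ht => ?_
    obtain ⟨c, hc⟩ := h lam n t ht
    refine ⟨algebraMap ℚ ℂ c, ?_⟩
    rw [inL_eq]
    exact up_eig hc

lemma dC_iff' {x : Matrix ι ι ℂ} :
    x ∈ dC K P ↔ x ∈ Submodule.span ℂ {m | ∃ x ∈ dL K P, m = matL ℂ x} := by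
  rw [mem_span_iff, dC_iff]

/-- The logarithmic derivatives of the period matrix. -/
lemma log_mem (hK : ∀ a ∈ K, IsAlgebraic ℚ a) (hP : P * P⁻¹ = 1) (D : Derivation ℚ ℂ ℂ) :
    P⁻¹ * P.map D ∈ dC K P := by
  intro n t ⟨c, hc, ht⟩
  refine ⟨-(D c / c), ?_⟩
  have h1 : act (dbl P) (D c • inL ℂ t + c • der (lieDbl (P⁻¹ * P.map D)) (inL ℂ t)) = 0 := by
    funext v
    have h2 := NC.der_of_alg (hK _ (ht v)) D
    have h3 := congrFun (Pool.Agent.N427.NC.leib_ ℚ ℂ D (ι ⊕ ι) n (dbl P) (dblI P P⁻¹)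
      (dbl_mul_dblI hP) t) v
    beta_reduce at h3
    rw [Derivation.leibniz, h3, dbl_D hP, smul_eq_mul, smul_eq_mul] at h2
    rw [NC.act_add, NC.act_smul, NC.act_smul, Pi.add_apply, Pi.smul_apply, Pi.smul_apply,
      smul_eq_mul, smul_eq_mul, Pi.zero_apply, ← h2]
    ring
  have h2 := NC.act_eq_zero (dbl_mul_dblI hP) h1
  have h3 : c • der (lieDbl (P⁻¹ * P.map D)) (inL ℂ t) = -(D c • inL ℂ t) :=
    eq_neg_of_add_eq_zero_right h2
  have h4 := congrArg (fun s => c⁻¹ • s) h3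
  simp only [smul_smul, inv_mul_cancel₀ hc, one_smul, smul_neg] at h4
  rw [h4, ← neg_smul]
  congr 2
  rw [div_eq_mul_inv, mul_comm]

/-- The Lie algebra is a substructure of `End V`. -/
lemma isSub_dL (hP : P * P⁻¹ = 1) : IsSubEnd K P (dL K P) := by
  have hP' : P⁻¹ * P = 1 := mul_eq_one_comm.1 hP
  refine ⟨{z | (∀ i j, z i j ∈ K) ∧ P⁻¹ * z * P ∈ dC K P}, fun m hm => hm.1, ?_⟩
  apply le_antisymm
  · refine Submodule.span_le.2 ?_
    rintro _ ⟨x, hx, rfl⟩
    refine mem_of_cm (K := K) fun lam => Submodule.subset_span ⟨fun i j => ?_, ?_⟩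
    · rw [cm, Matrix.map_apply]
      exact (lam _).2
    · intro n t ht
      obtain ⟨c, hc, hv⟩ := ht
      have hu : (fun w => algebraMap K ℂ ⟨_, hv w⟩) = c • act (dbl P) (inL ℂ t) := by
        funext w
        rfl
      obtain ⟨d, hd⟩ := hx n t ⟨c, hc, hv⟩
      have h1 : der (lieDbl (matL ℂ x)) (inL ℂ t) = (d : ℂ) • inL ℂ t := by
        have h := up_eig hd
        rw [← matL_eq, ← inL_eq] at h
        rw [h, eq_ratCast]
      have h2 : der (lieDbl (P * matL ℂ x * P⁻¹)) (fun w => algebraMap K ℂ ⟨_, hv w⟩) =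
          (d : ℂ) • fun w => algebraMap K ℂ ⟨_, hv w⟩ := by
        rw [hu, ← dbl_conj, der_smul_right, der_conj' (dbl_mul_dblI hP), h1, NC.act_smul,
          smul_comm]
      have h3 := up_eig (comp_eig lam h2)
      refine ⟨algebraMap K ℂ (lam d), ?_⟩
      have h4 : P * (P⁻¹ * cm lam (P * matL ℂ x * P⁻¹) * P) * P⁻¹ =
          cm lam (P * matL ℂ x * P⁻¹) := by
        rw [← Matrix.mul_assoc, ← Matrix.mul_assoc, hP, Matrix.one_mul, Matrix.mul_assoc, hP,
          Matrix.mul_one]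
      have h5 : cm lam (P * matL ℂ x * P⁻¹) =
          ((P * matL ℂ x * P⁻¹).map lam).map (algebraMap K ℂ) := rfl
      rw [← h5, ← h4, hu, ← dbl_conj, der_smul_right, der_conj' (dbl_mul_dblI hP)] at h3
      have h6 : act (dbl P) (c • (der (lieDbl (P⁻¹ * cm lam (P * matL ℂ x * P⁻¹) * P)) (inL ℂ t) -
          algebraMap K ℂ (lam d) • inL ℂ t)) = 0 := by
        rw [smul_sub, sub_eq_add_neg, ← neg_one_smul ℂ (c • _), NC.act_add, NC.act_smul, NC.act_smul,
          NC.act_smul, NC.act_smul, h3, neg_one_smul, smul_comm c, add_neg_cancel]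
      have h7 := NC.act_eq_zero (dbl_mul_dblI hP) h6
      exact sub_eq_zero.1 ((smul_eq_zero.1 h7).resolve_left hc)
  · refine Submodule.span_le.2 ?_
    rintro z ⟨-, hz⟩
    rw [dC_iff'] at hz
    have h1 := Submodule.mem_map_of_mem
      (f := (LinearMap.mulLeft ℂ P) ∘ₗ (LinearMap.mulRight ℂ P⁻¹)) hz
    rw [Submodule.map_span] at h1
    have h2 : ((LinearMap.mulLeft ℂ P) ∘ₗ (LinearMap.mulRight ℂ P⁻¹)) (P⁻¹ * z * P) = z := by
      rw [LinearMap.comp_apply, LinearMap.mulRight_apply, LinearMap.mulLeft_apply,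
        Matrix.mul_assoc _ P P⁻¹, hP, Matrix.mul_one, ← Matrix.mul_assoc, hP, Matrix.one_mul]
    rw [h2] at h1
    refine Submodule.span_mono ?_ h1
    rintro _ ⟨_, ⟨x, hx, rfl⟩, rfl⟩
    exact ⟨x, hx, by
      rw [LinearMap.comp_apply, LinearMap.mulRight_apply, LinearMap.mulLeft_apply,
        Matrix.mul_assoc]⟩

end Pool.Agent.N202.QD
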