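import Pool.Agent.N202.QD.Proj
import Pool.Agent.N202.QD.Bil
import Pool.Agent.N202.QD.ExpD

/-!
# The theorem on quadratic relations
-/

set_option linter.unusedSectionVars false

namespace Pool.Agent.N202.QD

open Matrix
open Pool.Agent.N202.CF (Tensor inL act matL der der_eq der_add_left der_smul_left)
open Pool.Agent.N202.TB Pool.Agent.N996.BP

variable {ι : Type} [Fintype ι] [DecidableEq ι]

variable {K : IntermediateField ℚ ℂ} {P : Matrix ι ι ℂ}

section proj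

variable {W W' : Submodule ℚ (Matrix ι ι ℚ)} {p : Matrix ι ι ℚ →ₗ[ℚ] Matrix ι ι ℚ}

lemma p_fix (hi : W ⊓ W' = ⊥) (h1 : ∀ x, p x ∈ W) (h2 : ∀ x, x - p x ∈ W') :
    ∀ x ∈ W, p x = x := by
  intro x hx
  have h : x - p x ∈ W ⊓ W' := ⟨Submodule.sub_mem _ hx (h1 x), h2 x⟩
  rw [hi, Submodule.mem_bot, sub_eq_zero] at h
  exact h.symm

lemma p_kill (hi : W ⊓ W' = ⊥) (h1 : ∀ x, p x ∈ W) (h2 : ∀ x, x - p x ∈ W') :
    ∀ x ∈ W', p x = 0 := by
  intro x hx
  have h : p x ∈ W ⊓ W' := ⟨h1 x, by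
    have h3 := Submodule.sub_mem _ hx (h2 x)
    rwa [sub_sub_cancel] at h3⟩
  rwa [hi, Submodule.mem_bot] at h

lemma sub_obj (hK : ∀ a ∈ K, IsAlgebraic ℚ a) (hW : IsSubEnd K P W) : NC.IsSubobject P W := by
  obtain ⟨T, hT, hs⟩ := hW
  exact ⟨T, fun m hm i j => hK _ (hT m hm i j), hs⟩

lemma p_comm (hK : ∀ a ∈ K, IsAlgebraic ℚ a) (hP : P * P⁻¹ = 1) (hW : IsSubEnd K P W)
    (hW' : IsSubEnd K P W') (hi : W ⊓ W' = ⊥) (h1 : ∀ x, p x ∈ W) (h2 : ∀ x, x - p x ∈ W')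
    (D : Derivation ℚ ℂ ℂ) (lam : ℂ →ₗ[ℚ] ℚ) (x : Matrix ι ι ℚ) :
    p ((P⁻¹ * P.map D).map lam * x - x * (P⁻¹ * P.map D).map lam) =
      (P⁻¹ * P.map D).map lam * p x - p x * (P⁻¹ * P.map D).map lam := by
  set v := (P⁻¹ * P.map D).map lam with hv
  have e1 : v * p x - p x * v ∈ W := NC.sub_stable D hP (sub_obj hK hW) (h1 x) lam
  have e2 : v * (x - p x) - (x - p x) * v ∈ W' :=
    NC.sub_stable D hP (sub_obj hK hW') (h2 x) lam
  have e3 : v * x - x * v = (v * p x - p x * v) + (v * (x - p x) - (x - p x) * v) := by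
    rw [Matrix.mul_sub, Matrix.sub_mul]
    abel
  rw [e3, map_add, p_fix hi h1 h2 _ e1, p_kill hi h1 h2 _ e2, add_zero]

end proj

/-- A rational matrix which commutes with the logarithmic derivatives has algebraic periods. -/
lemma alg_of_comm (hP : P * P⁻¹ = 1) {x : Matrix ι ι ℚ}
    (hx : ∀ (D : Derivation ℚ ℂ ℂ) (lam : ℂ →ₗ[ℚ] ℚ),
      (P⁻¹ * P.map D).map lam * x - x * (P⁻¹ * P.map D).map lam = 0) (i j : ι) :
    IsAlgebraic ℚ ((P * matL ℂ x * P⁻¹) i j) := by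
  refine NC.alg_of_der fun D => ?_
  have h1 : (P⁻¹ * P.map D) * matL ℂ x - matL ℂ x * (P⁻¹ * P.map D) = 0 := by
    have h2 : (P⁻¹ * P.map D) * matL ℂ x - matL ℂ x * (P⁻¹ * P.map D) ∈
        (⊥ : Submodule ℂ (Matrix ι ι ℂ)) := by
      refine mem_of_cm (K := ℚ) fun lam => ?_
      rw [cm_rat, NC.map_comm, hx D lam, Submodule.mem_bot]
      ext a b
      simp [matL]
    exact (Submodule.mem_bot ℂ).1 h2
  have h3 := NC.map_D_conj D hP x
  rw [h1, Matrix.mul_zero, Matrix.zero_mul] at h3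
  have h4 := congrFun (congrFun h3 i) j
  rwa [Matrix.map_apply, Matrix.zero_apply] at h4

section mono

variable {B : Set (Matrix ι ι ℂ)} {𝔥 : Submodule ℂ (Matrix ι ι ℂ)} (hM : IsMonodromy B 𝔥)
  (hPB : P ∈ B)

include hM hPB in
/-- Linear relations. -/
lemma comm_of_rat (hP : P * P⁻¹ = 1) (hR : NoNewRelations K P B 1) {x : Matrix ι ι ℚ}
    (hx : ∀ i j, (P * matL ℂ x * P⁻¹) i j ∈ K) {y : Matrix ι ι ℂ} (hy : y ∈ 𝔥) :
    y * matL ℂ x - matL ℂ x * y = 0 := by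
  have hP' : P⁻¹ * P = 1 := mul_eq_one_comm.1 hP
  refine deriv_fix _ _ fun t => ?_
  have hB : P * NormedSpace.exp (t • y) ∈ B := hM.stable P hPB _ (Submodule.smul_mem _ _ hy)
  have h1 : ∀ i j, (P * NormedSpace.exp (t • y) * matL ℂ x -
      P * matL ℂ x * P⁻¹ * (P * NormedSpace.exp (t • y))) i j = 0 := by
    intro i j
    have e := aeval_lp (K := K) (fun i j => algebraMap ℚ K (x i j)) (fun i j => ⟨_, hx i j⟩)
      (matL ℂ x) (P * matL ℂ x * P⁻¹)
    have ex : ∀ i j, matL ℂ x i j = ((algebraMap ℚ K (x i j) : K) : ℂ) := by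
      intro i j
      rw [matL, Matrix.map_apply, eq_ratCast]
      simp
    rw [← e _ ex (fun _ _ => rfl)]
    refine hR _ (deg_lp _ _ _ _) ?_ _ hB
    rw [e _ ex (fun _ _ => rfl), Matrix.mul_assoc _ P⁻¹ P, hP', Matrix.mul_one, sub_self,
      Matrix.zero_apply]
  have h2 : P * NormedSpace.exp (t • y) * matL ℂ x =
      P * matL ℂ x * P⁻¹ * (P * NormedSpace.exp (t • y)) := by
    ext i j
    have h3 := h1 i j
    rwa [Matrix.sub_apply, sub_eq_zero] at h3
  rw [Matrix.mul_assoc (P * matL ℂ x), ← Matrix.mul_assoc P⁻¹, hP', Matrix.one_mul] at h2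
  have h3 := congrArg (fun M => P⁻¹ * M * NormedSpace.exp (-(t • y))) h2
  simp only [← Matrix.mul_assoc, hP', Matrix.one_mul] at h3
  rw [h3, Matrix.mul_assoc, exp_inv', Matrix.mul_one]

include hM hPB in
/-- Quadratic relations. -/
lemma ext_comm (hP : P * P⁻¹ = 1) (hR : NoNewRelations K P B 2)
    {W W' : Submodule ℚ (Matrix ι ι ℚ)} (hW : IsSubEnd K P W) (hW' : IsSubEnd K P W')
    (hi : W ⊓ W' = ⊥) {p : Matrix ι ι ℚ →ₗ[ℚ] Matrix ι ι ℚ} (h1 : ∀ x, p x ∈ W)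
    (h2 : ∀ x, x - p x ∈ W') {y : Matrix ι ι ℂ} (hy : y ∈ 𝔥) (x : Matrix ι ι ℂ) :
    ext p (y * x - x * y) = y * ext p x - ext p x * y := by
  have hP' : P⁻¹ * P = 1 := mul_eq_one_comm.1 hP
  have hz : ∀ j l i k, zz P (ext p) (single j l 1) i k ∈ K := by
    intro j l i k
    refine zz_rat hP hW hW' hi h1 h2 (fun a b => ?_) i k
    rw [single_apply]
    split_ifs
    · exact one_mem K
    · exact zero_mem K
  have hu : ∀ a b q d, ext p (single a b 1) q d =
      ((algebraMap ℚ K (p (single a b 1) q d) : K) : ℂ) := by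
    intro a b q d
    have h3 : (single a b 1 : Matrix ι ι ℂ) = matL ℂ (single a b 1) := by
      rw [matL_eq, Matrix.map_single, map_one]
    rw [h3, ext_matL, matL, Matrix.map_apply]
    simp
  have key : ∀ Z ∈ B, ∀ Z', Z * Z' = 1 → ∀ x, zz P (ext p) (Z * x * Z') = Z * ext p x * Z' := by
    intro Z hZ Z' hZZ
    refine of_bil (ext p) (zz P (ext p)) Z Z' hZZ fun i a d c => ?_
    have e := aeval_qp (K := K) (ext p) (zz P (ext p))
      (fun a b q d => algebraMap ℚ K (p (single a b 1) q d)) (fun j l i k => ⟨_, hz j l i k⟩) hu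
      (fun _ _ _ _ => rfl)
    rw [← sub_eq_zero, ← e Z i a d c]
    refine hR _ (deg_qp _ _ _ _ _ _) ?_ Z hZ
    rw [e P i a d c, bil_of (ext p) (zz P (ext p)) P P⁻¹ hP (zz_conj hP (ext p)), sub_self]
  refine deriv_conj (ext p) x (ext p x) y fun t => ?_
  have hB : P * NormedSpace.exp (t • y) ∈ B := hM.stable P hPB _ (Submodule.smul_mem _ _ hy)
  have hinv : P * NormedSpace.exp (t • y) * (NormedSpace.exp (-(t • y)) * P⁻¹) = 1 := by
    rw [Matrix.mul_assoc, ← Matrix.mul_assoc (NormedSpace.exp (t • y)), exp_inv', Matrix.one_mul,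
      hP]
  have h3 := key _ hB _ hinv x
  have h4 : P * NormedSpace.exp (t • y) * x * (NormedSpace.exp (-(t • y)) * P⁻¹) =
      P * (NormedSpace.exp (t • y) * x * NormedSpace.exp (-(t • y))) * P⁻¹ := by
    simp only [Matrix.mul_assoc]
  have h5 : P * NormedSpace.exp (t • y) * ext p x * (NormedSpace.exp (-(t • y)) * P⁻¹) =
      P * (NormedSpace.exp (t • y) * ext p x * NormedSpace.exp (-(t • y))) * P⁻¹ := by
    simp only [Matrix.mul_assoc]
  rw [h4, h5, zz_conj hP] at h3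
  have h6 := congrArg (fun M => P⁻¹ * M * P) h3
  beta_reduce at h6
  rwa [Matrix.mul_assoc P⁻¹, Matrix.mul_assoc _ P⁻¹ P, hP', Matrix.mul_one, ← Matrix.mul_assoc, hP',
    Matrix.one_mul, Matrix.mul_assoc P⁻¹, Matrix.mul_assoc _ P⁻¹ P, hP', Matrix.mul_one,
    ← Matrix.mul_assoc, hP', Matrix.one_mul] at h6

include hM hPB in
/-- **The Lie algebra of the monodromy is contained in the de Rham–Betti Lie algebra.** -/
theorem mono_le (hK : ∀ a ∈ K, IsAlgebraic ℚ a) (hP : P * P⁻¹ = 1)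
    (hR : NoNewRelations K P B 2) (hE : EndOver K P) (hS : EndSemisimple K P) : 𝔥 ≤ dC K P := by
  obtain ⟨W', hW', hc⟩ := hS _ (isSub_dL (K := K) hP)
  have hW := isSub_dL (K := K) hP
  set W := dL K P with hWd
  have hi : W ⊓ W' = ⊥ := hc.inf_eq_bot
  obtain ⟨p, h1, h2⟩ : ∃ p : Matrix ι ι ℚ →ₗ[ℚ] Matrix ι ι ℚ, (∀ x, p x ∈ W) ∧
      ∀ x, x - p x ∈ W' := by
    refine ⟨W.subtype ∘ₗ W.projectionOnto W' hc, fun x => ?_, fun x => ?_⟩
    · rw [LinearMap.comp_apply]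
      exact Subtype.mem _
    · have h3 : x - (W.subtype ∘ₗ W.projectionOnto W' hc) x ∈ (W.projectionOnto W' hc).ker := by
        rw [LinearMap.mem_ker, map_sub, LinearMap.comp_apply, Submodule.subtype_apply,
          Submodule.projectionOnto_apply_left, sub_self]
      rwa [Submodule.ker_projectionOnto] at h3
  have hR1 : NoNewRelations K P B 1 := fun f hf => hR f (hf.trans one_le_two)
  have hdC : ∀ u : Matrix ι ι ℂ, u ∈ dC K P ↔ u ∈ spc W := fun u => dC_iff'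
  have hfix := p_fix hi h1 h2
  -- (a)
  have ha : ∀ y ∈ 𝔥, ∀ d ∈ spc W, y * d - d * y ∈ spc W := by
    intro y hy d hd
    have e := ext_comm hM hPB hP hR hW hW' hi h1 h2 hy d
    rw [ext_fix hfix hd] at e
    rw [← e]
    exact ext_mem h1 _
  -- (c)
  have hc' : ∀ y ∈ 𝔥, ∀ lam : ℂ →ₗ[ℚ] ℚ, ∀ y' ∈ 𝔥,
      y' * matL ℂ (y.map lam - p (y.map lam)) - matL ℂ (y.map lam - p (y.map lam)) * y' = 0 := by
    intro y hy lam y' hy'
    refine comm_of_rat hM hPB hP hR1 (hE _ (alg_of_comm hP fun D mu => ?_)) hy'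
    have hv : (P⁻¹ * P.map D).map mu ∈ W := dC_iff.1 (log_mem hK hP D) mu
    have e1 : y * matL ℂ ((P⁻¹ * P.map D).map mu) - matL ℂ ((P⁻¹ * P.map D).map mu) * y ∈ spc W :=
      ha y hy _ (Submodule.subset_span ⟨_, hv, rfl⟩)
    have e2 := mem_spc.1 e1 lam
    rw [NC.map_comm] at e2
    have e3 : (P⁻¹ * P.map D).map mu * y.map lam - y.map lam * (P⁻¹ * P.map D).map mu ∈ W := by
      have e4 := W.neg_mem e2
      rwa [neg_sub] at e4
    have e4 := p_comm hK hP hW hW' hi h1 h2 D mu (y.map lam)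
    rw [hfix _ e3] at e4
    rw [Matrix.mul_sub, Matrix.sub_mul, sub_sub_sub_comm, e4, sub_self]
  -- (d)
  have hd : ∀ y ∈ 𝔥, ∀ y' ∈ 𝔥, y' * (y - ext p y) - (y - ext p y) * y' = 0 := by
    intro y hy y' hy'
    have h3 : y - ext p y ∈ LinearMap.ker
        ((LinearMap.mulLeft ℂ y' - LinearMap.mulRight ℂ y' : Matrix ι ι ℂ →ₗ[ℂ] Matrix ι ι ℂ)) := by
      refine mem_of_cm (K := ℚ) fun lam => ?_
      have h4 : (y - ext p y).map lam = y.map lam - p (y.map lam) := by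
        rw [← ext_comp_lam]
        ext a b
        simp
      rw [cm_rat, h4, LinearMap.mem_ker, LinearMap.sub_apply, LinearMap.mulLeft_apply,
        LinearMap.mulRight_apply]
      exact hc' y hy lam y' hy'
    rwa [LinearMap.mem_ker, LinearMap.sub_apply, LinearMap.mulLeft_apply,
      LinearMap.mulRight_apply] at h3
  -- (e)
  intro y hy
  rw [hM.perfect] at hy
  refine Submodule.span_le.2 ?_ hy
  rintro _ ⟨a, ha1, b, hb1, rfl⟩
  show a * b - b * a ∈ dC K P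
  rw [hdC]
  have e1 := hd a ha1 b hb1
  have e2 : a * b - b * a = -(b * ext p a - ext p a * b) := by
    rw [Matrix.mul_sub, Matrix.sub_mul] at e1
    have e3 : b * a - a * b = b * ext p a - ext p a * b := by
      rw [← sub_eq_zero, ← e1]
      abel
    rw [← e3, neg_sub]
  rw [e2]
  exact Submodule.neg_mem _ (ha b hb1 _ (ext_mem h1 _))

include hM hPB in
/-- **The theorem on quadratic relations.** -/
theorem kills (hK : ∀ a ∈ K, IsAlgebraic ℚ a) (hP : P * P⁻¹ = 1)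
    (hR : NoNewRelations K P B 2) (hE : EndOver K P) (hS : EndSemisimple K P) {n : ℕ}
    {t : Tensor (ι ⊕ ι) n ℚ} (ht : IsClass K P t) {y : Matrix ι ι ℂ} (hy : y ∈ 𝔥) :
    der (lieDbl y) (inL ℂ t) = 0 := by
  have hle := mono_le hM hPB hK hP hR hE hS
  rw [hM.perfect] at hy
  induction hy using Submodule.span_induction with
  | mem m hm =>
    obtain ⟨a, ha, b, hb, rfl⟩ := hm
    obtain ⟨c, hc⟩ := hle ha n t ht
    obtain ⟨d, hd⟩ := hle hb n t ht
    rw [der_eq] at hc hd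
    rw [lieDbl_bracket, der_eq, dp_bracket, Matrix.sub_mulVec, ← Matrix.mulVec_mulVec,
      ← Matrix.mulVec_mulVec, hc, hd, Matrix.mulVec_smul, Matrix.mulVec_smul, hc, hd, smul_comm,
      sub_self]
  | zero =>
    have h : lieDbl (0 : Matrix ι ι ℂ) = 0 := by
      have h1 := lieDbl_smul (0 : ℂ) (0 : Matrix ι ι ℂ)
      rwa [zero_smul, zero_smul] at h1
    rw [h, Pool.Agent.N202.CF.der_zero_left]
  | add a b _ _ ha hb => rw [lieDbl_add, der_add_left, ha, hb, add_zero]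
  | smul c a _ ha => rw [lieDbl_smul, der_smul_left, ha, smul_zero]

end mono

end Pool.Agent.N202.QD
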