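import Pool.Agent.N202.QD.LieD

/-!
# The projector to a substructure
-/

set_option linter.unusedSectionVars false

namespace Pool.Agent.N202.QD

open Matrix
open Pool.Agent.N202.CF (Tensor inL act matL der)

variable {ι : Type} [Fintype ι] [DecidableEq ι]

/-- The complexification of a linear map. -/
noncomputable def ext (p : Matrix ι ι ℚ →ₗ[ℚ] Matrix ι ι ℚ) : Matrix ι ι ℂ →ₗ[ℂ] Matrix ι ι ℂ where
  toFun m := ∑ j, ∑ l, m j l • matL ℂ (p (single j l 1))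
  map_add' a b := by
    rw [← Finset.sum_add_distrib]
    refine Finset.sum_congr rfl fun j _ => ?_
    rw [← Finset.sum_add_distrib]
    refine Finset.sum_congr rfl fun l _ => ?_
    rw [Matrix.add_apply, add_smul]
  map_smul' c a := by
    rw [RingHom.id_apply, Finset.smul_sum]
    refine Finset.sum_congr rfl fun j _ => ?_
    rw [Finset.smul_sum]
    refine Finset.sum_congr rfl fun l _ => ?_
    rw [Matrix.smul_apply, smul_eq_mul, mul_smul]

lemma ext_apply (p : Matrix ι ι ℚ →ₗ[ℚ] Matrix ι ι ℚ) (m : Matrix ι ι ℂ) :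
    ext p m = ∑ j, ∑ l, m j l • matL ℂ (p (single j l 1)) := rfl

lemma matL_smul' (c : ℚ) (x : Matrix ι ι ℚ) : matL ℂ (c • x) = (c : ℂ) • matL ℂ x := by
  ext i j
  simp [matL]

lemma matL_sum {κ : Type} (s : Finset κ) (f : κ → Matrix ι ι ℚ) :
    matL ℂ (∑ k ∈ s, f k) = ∑ k ∈ s, matL ℂ (f k) := by
  rw [matL_eq]
  have h := map_sum (algebraMap ℚ ℂ).mapMatrix f s
  rw [RingHom.mapMatrix_apply] at h
  rw [h]
  refine Finset.sum_congr rfl fun k _ => ?_
  rw [matL_eq]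
  rfl

lemma ext_matL (p : Matrix ι ι ℚ →ₗ[ℚ] Matrix ι ι ℚ) (x : Matrix ι ι ℚ) :
    ext p (matL ℂ x) = matL ℂ (p x) := by
  have h : p x = ∑ j, ∑ l, x j l • p (single j l 1) := by
    conv_lhs => rw [matrix_eq_sum_single x]
    rw [map_sum]
    refine Finset.sum_congr rfl fun j _ => ?_
    rw [map_sum]
    refine Finset.sum_congr rfl fun l _ => ?_
    rw [← map_smul, smul_single, smul_eq_mul, mul_one]
  rw [ext_apply, h, matL_sum]
  refine Finset.sum_congr rfl fun j _ => ?_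
  rw [matL_sum]
  refine Finset.sum_congr rfl fun l _ => ?_
  rw [matL_smul']
  rfl

/-- The complexification of a space of rational matrices. -/
def spc (W : Submodule ℚ (Matrix ι ι ℚ)) : Submodule ℂ (Matrix ι ι ℂ) :=
  Submodule.span ℂ {m | ∃ x ∈ W, m = matL ℂ x}

lemma mem_spc {W : Submodule ℚ (Matrix ι ι ℚ)} {u : Matrix ι ι ℂ} :
    u ∈ spc W ↔ ∀ lam : ℂ →ₗ[ℚ] ℚ, u.map lam ∈ W := mem_span_iff W u

lemma top_spc (u : Matrix ι ι ℂ) : u ∈ Submodule.span ℂ (Set.range (matL ℂ (ι := ι))) := by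
  refine mem_of_cm (K := ℚ) fun lam => ?_
  rw [cm_rat]
  exact Submodule.subset_span ⟨_, rfl⟩

lemma ext_mem {p : Matrix ι ι ℚ →ₗ[ℚ] Matrix ι ι ℚ} {W : Submodule ℚ (Matrix ι ι ℚ)}
    (h : ∀ x, p x ∈ W) (m : Matrix ι ι ℂ) : ext p m ∈ spc W := by
  have h1 := top_spc m
  induction h1 using Submodule.span_induction with
  | mem x hx =>
    obtain ⟨y, rfl⟩ := hx
    rw [ext_matL]
    exact Submodule.subset_span ⟨_, h y, rfl⟩
  | zero => rw [map_zero]; exact Submodule.zero_mem _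
  | add a b _ _ ha hb => rw [map_add]; exact Submodule.add_mem _ ha hb
  | smul c a _ ha => rw [map_smul]; exact Submodule.smul_mem _ _ ha

lemma ext_comp {p : Matrix ι ι ℚ →ₗ[ℚ] Matrix ι ι ℚ} {W : Submodule ℚ (Matrix ι ι ℚ)}
    (h : ∀ x, x - p x ∈ W) (m : Matrix ι ι ℂ) : m - ext p m ∈ spc W := by
  have h1 := top_spc m
  induction h1 using Submodule.span_induction with
  | mem x hx =>
    obtain ⟨y, rfl⟩ := hx
    rw [ext_matL, ← Pool.Agent.N202.CF.matL_sub]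
    exact Submodule.subset_span ⟨_, h y, rfl⟩
  | zero => rw [map_zero, sub_zero]; exact Submodule.zero_mem _
  | add a b _ _ ha hb =>
    rw [map_add, add_sub_add_comm]
    exact Submodule.add_mem _ ha hb
  | smul c a _ ha =>
    rw [map_smul, ← smul_sub]
    exact Submodule.smul_mem _ _ ha

lemma ext_fix {p : Matrix ι ι ℚ →ₗ[ℚ] Matrix ι ι ℚ} {W : Submodule ℚ (Matrix ι ι ℚ)}
    (h : ∀ x ∈ W, p x = x) {m : Matrix ι ι ℂ} (hm : m ∈ spc W) : ext p m = m := by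
  rw [spc] at hm
  induction hm using Submodule.span_induction with
  | mem x hx =>
    obtain ⟨y, hy, rfl⟩ := hx
    rw [ext_matL, h y hy]
  | zero => rw [map_zero]
  | add a b _ _ ha hb => rw [map_add, ha, hb]
  | smul c a _ ha => rw [map_smul, ha]

/-- The components of the value. -/
lemma ext_comp_lam (p : Matrix ι ι ℚ →ₗ[ℚ] Matrix ι ι ℚ) (lam : ℂ →ₗ[ℚ] ℚ) (m : Matrix ι ι ℂ) :
    (ext p m).map lam = p (m.map lam) := by
  have h : p (m.map lam) = ∑ j, ∑ l, lam (m j l) • p (single j l 1) := by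
    conv_lhs => rw [matrix_eq_sum_single (m.map lam)]
    rw [map_sum]
    refine Finset.sum_congr rfl fun j _ => ?_
    rw [map_sum]
    refine Finset.sum_congr rfl fun l _ => ?_
    rw [← map_smul, smul_single, smul_eq_mul, mul_one]
    rfl
  rw [h, ext_apply]
  ext i k
  rw [Matrix.map_apply, Matrix.sum_apply, Matrix.sum_apply, map_sum]
  refine Finset.sum_congr rfl fun j _ => ?_
  rw [Matrix.sum_apply, Matrix.sum_apply, map_sum]
  refine Finset.sum_congr rfl fun l _ => ?_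
  rw [Matrix.smul_apply, Matrix.smul_apply, smul_eq_mul, smul_eq_mul, mul_comm, matL,
    Matrix.map_apply, ← Rat.smul_def, map_smul, smul_eq_mul, mul_comm]

variable {K : IntermediateField ℚ ℂ} {P : Matrix ι ι ℂ}

/-- The conjugate of the space. -/
lemma conj_spc (hP : P * P⁻¹ = 1) {W : Submodule ℚ (Matrix ι ι ℚ)} {u : Matrix ι ι ℂ} :
    P * u * P⁻¹ ∈ Submodule.span ℂ {m | ∃ x ∈ W, m = P * matL ℂ x * P⁻¹} ↔ u ∈ spc W := by
  have hP' : P⁻¹ * P = 1 := mul_eq_one_comm.1 hP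
  constructor
  · intro h
    have h1 := Submodule.mem_map_of_mem
      (f := (LinearMap.mulLeft ℂ P⁻¹) ∘ₗ (LinearMap.mulRight ℂ P)) h
    rw [Submodule.map_span] at h1
    have h2 : ∀ v : Matrix ι ι ℂ, ((LinearMap.mulLeft ℂ P⁻¹) ∘ₗ (LinearMap.mulRight ℂ P))
        (P * v * P⁻¹) = v := fun v => by
      rw [LinearMap.comp_apply, LinearMap.mulRight_apply, LinearMap.mulLeft_apply,
        Matrix.mul_assoc _ P⁻¹ P, hP', Matrix.mul_one, ← Matrix.mul_assoc, hP', Matrix.one_mul]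
    rw [h2] at h1
    refine Submodule.span_mono ?_ h1
    rintro _ ⟨_, ⟨x, hx, rfl⟩, rfl⟩
    exact ⟨x, hx, h2 _⟩
  · intro h
    have h1 := Submodule.mem_map_of_mem
      (f := (LinearMap.mulLeft ℂ P) ∘ₗ (LinearMap.mulRight ℂ P⁻¹)) h
    rw [spc, Submodule.map_span] at h1
    have h2 : ∀ v : Matrix ι ι ℂ, ((LinearMap.mulLeft ℂ P) ∘ₗ (LinearMap.mulRight ℂ P⁻¹)) v =
        P * v * P⁻¹ := fun v => by
      rw [LinearMap.comp_apply, LinearMap.mulRight_apply, LinearMap.mulLeft_apply, Matrix.mul_assoc]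
    rw [h2] at h1
    refine Submodule.span_mono ?_ h1
    rintro _ ⟨_, ⟨x, hx, rfl⟩, rfl⟩
    exact ⟨x, hx, h2 _⟩

/-- The conjugate of the linear map. -/
noncomputable def zz (P : Matrix ι ι ℂ) (q : Matrix ι ι ℂ →ₗ[ℂ] Matrix ι ι ℂ) :
    Matrix ι ι ℂ →ₗ[ℂ] Matrix ι ι ℂ :=
  (LinearMap.mulLeft ℂ P) ∘ₗ (LinearMap.mulRight ℂ P⁻¹) ∘ₗ q ∘ₗ
    (LinearMap.mulLeft ℂ P⁻¹) ∘ₗ (LinearMap.mulRight ℂ P)

lemma zz_apply (q : Matrix ι ι ℂ →ₗ[ℂ] Matrix ι ι ℂ) (m : Matrix ι ι ℂ) :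
    zz P q m = P * q (P⁻¹ * m * P) * P⁻¹ := by
  rw [zz, LinearMap.comp_apply, LinearMap.comp_apply, LinearMap.comp_apply, LinearMap.comp_apply,
    LinearMap.mulRight_apply, LinearMap.mulRight_apply, LinearMap.mulLeft_apply,
    LinearMap.mulLeft_apply, Matrix.mul_assoc, Matrix.mul_assoc]

lemma zz_conj (hP : P * P⁻¹ = 1) (q : Matrix ι ι ℂ →ₗ[ℂ] Matrix ι ι ℂ) (x : Matrix ι ι ℂ) :
    zz P q (P * x * P⁻¹) = P * q x * P⁻¹ := by
  have hP' : P⁻¹ * P = 1 := mul_eq_one_comm.1 hP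
  rw [zz_apply, Matrix.mul_assoc (P⁻¹), Matrix.mul_assoc _ P⁻¹ P, hP', Matrix.mul_one,
    ← Matrix.mul_assoc, hP', Matrix.one_mul]

/-- The conjugate of the projector is `K`-rational. -/
theorem zz_rat (hP : P * P⁻¹ = 1) {W W' : Submodule ℚ (Matrix ι ι ℚ)} (hW : IsSubEnd K P W)
    (hW' : IsSubEnd K P W') (hi : W ⊓ W' = ⊥) {p : Matrix ι ι ℚ →ₗ[ℚ] Matrix ι ι ℚ}
    (h1 : ∀ x, p x ∈ W) (h2 : ∀ x, x - p x ∈ W') {m : Matrix ι ι ℂ} (hm : ∀ i j, m i j ∈ K)
    (i j : ι) : zz P (ext p) m i j ∈ K := by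
  have hP' : P⁻¹ * P = 1 := mul_eq_one_comm.1 hP
  obtain ⟨T, hT, hs⟩ := hW
  obtain ⟨T', hT', hs'⟩ := hW'
  obtain ⟨lam, hlam⟩ := exists_one (K := K)
  have e1 : zz P (ext p) m ∈ Submodule.span ℂ T := by
    rw [← hs, zz_apply, conj_spc hP]
    exact ext_mem h1 _
  have e2 : m - zz P (ext p) m ∈ Submodule.span ℂ T' := by
    have e3 : m - zz P (ext p) m = P * (P⁻¹ * m * P - ext p (P⁻¹ * m * P)) * P⁻¹ := by
      rw [zz_apply, Matrix.mul_sub, Matrix.sub_mul]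
      congr 1
      rw [← Matrix.mul_assoc, ← Matrix.mul_assoc, hP, Matrix.one_mul, Matrix.mul_assoc, hP,
        Matrix.mul_one]
    rw [← hs', e3, conj_spc hP]
    exact ext_comp h2 _
  have c1 := cm_mem (K := K) (fun m hm i j => ⟨⟨_, hT m hm i j⟩, rfl⟩) e1 lam
  have c2 := cm_mem (K := K) (fun m hm i j => ⟨⟨_, hT' m hm i j⟩, rfl⟩) e2 lam
  have c3 : cm lam (m - zz P (ext p) m) = m - cm lam (zz P (ext p) m) := by
    ext a b
    rw [cm, Matrix.map_apply, Matrix.sub_apply, Matrix.sub_apply, map_sub, map_sub, cm,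
      Matrix.map_apply]
    congr 1
    have h := lam_alg hlam (⟨m a b, hm a b⟩ : K)
    exact congrArg (algebraMap K ℂ) h
  rw [c3] at c2
  have c4 : zz P (ext p) m - cm lam (zz P (ext p) m) ∈ Submodule.span ℂ T :=
    Submodule.sub_mem _ e1 c1
  have c5 : zz P (ext p) m - cm lam (zz P (ext p) m) ∈ Submodule.span ℂ T' := by
    have h := Submodule.sub_mem _ c2 e2
    rwa [sub_sub_sub_cancel_left] at h
  have c6 : zz P (ext p) m - cm lam (zz P (ext p) m) = 0 := by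
    set u := zz P (ext p) m - cm lam (zz P (ext p) m) with hu
    have hu' : u = P * (P⁻¹ * u * P) * P⁻¹ := by
      rw [← Matrix.mul_assoc, ← Matrix.mul_assoc, hP, Matrix.one_mul, Matrix.mul_assoc, hP,
        Matrix.mul_one]
    rw [← hs, hu', conj_spc hP, mem_spc] at c4
    rw [← hs', hu', conj_spc hP, mem_spc] at c5
    have h3 : P⁻¹ * u * P = 0 := by
      have h4 : P⁻¹ * u * P ∈ (⊥ : Submodule ℂ (Matrix ι ι ℂ)) := by
        refine mem_of_cm (K := ℚ) fun l => ?_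
        have h5 : (P⁻¹ * u * P).map l ∈ W ⊓ W' := ⟨c4 l, c5 l⟩
        rw [hi, Submodule.mem_bot] at h5
        rw [cm_rat, h5, Submodule.mem_bot]
        ext a b
        simp [matL]
      exact (Submodule.mem_bot ℂ).1 h4
    rw [hu', h3, Matrix.mul_zero, Matrix.zero_mul]
  rw [sub_eq_zero.1 c6, cm, Matrix.map_apply]
  exact (lam _).2

end Pool.Agent.N202.QD
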