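import Pool.Agent.N202.QD.Main
import Pool.Agent.N202.QD.Det

/-!
# The Lie algebra which stabilises the substructures
-/

set_option linter.unusedSectionVars false

namespace Pool.Agent.N202.QD

open Matrix
open Pool.Agent.N202.CF (Tensor inL act matL der der_eq act_eq der_add_left der_smul_left IsComb)
open Pool.Agent.N202.TB Pool.Agent.N996.BP

variable {ι : Type} [Fintype ι] [DecidableEq ι]

section fun_

variable {κ : Type} [Fintype κ] {F : Type} [Field F] [Algebra F ℂ]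

/-- The component of a vector. -/
def cv (lam : ℂ →ₗ[F] F) (u : κ → ℂ) : κ → ℂ := fun i => algebraMap F ℂ (lam (u i))

lemma mem_of_cv {u : κ → ℂ} {S : Submodule ℂ (κ → ℂ)} (h : ∀ lam : ℂ →ₗ[F] F, cv lam u ∈ S) :
    u ∈ S := by
  obtain ⟨J, s, b, lam, hu⟩ := exists_fam (K := F) u
  have h1 : u = ∑ j ∈ s, b j • cv (lam j) u := by
    funext i
    rw [Finset.sum_apply]
    exact hu i
  rw [h1]
  exact Submodule.sum_mem _ fun j _ => Submodule.smul_mem _ _ (h _)

lemma cv_mem {T : Set (κ → ℂ)} (hT : ∀ m ∈ T, ∀ i, ∃ a : F, m i = algebraMap F ℂ a)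
    {u : κ → ℂ} (hu : u ∈ Submodule.span ℂ T) :
    ∀ lam : ℂ →ₗ[F] F, cv lam u ∈ Submodule.span ℂ T := by
  induction hu using Submodule.span_induction with
  | mem m hm =>
    intro lam
    have h1 : cv lam m = algebraMap F ℂ (lam 1) • m := by
      funext i
      obtain ⟨a, ha⟩ := hT m hm i
      have h2 := lam_mul lam a 1
      rw [mul_one] at h2
      rw [cv, Pi.smul_apply, smul_eq_mul, ha, h2, map_mul, mul_comm]
    rw [h1]
    exact Submodule.smul_mem _ _ (Submodule.subset_span hm)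
  | zero =>
    intro lam
    have h1 : cv lam (0 : κ → ℂ) = 0 := by
      funext i
      simp [cv]
    rw [h1]
    exact Submodule.zero_mem _
  | add a b _ _ ha hb =>
    intro lam
    have h1 : cv lam (a + b) = cv lam a + cv lam b := by
      funext i
      simp [cv]
    rw [h1]
    exact Submodule.add_mem _ (ha lam) (hb lam)
  | smul c a _ ha =>
    intro lam
    have h1 : cv lam (c • a) = cv (lam ∘ₗ LinearMap.mulLeft F c) a := by
      funext i
      simp [cv]
    rw [h1]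
    exact ha _

/-- Rational components. -/
lemma cr_mem {W : Submodule ℚ (κ → ℚ)} {u : κ → ℂ}
    (hu : u ∈ Submodule.span ℂ (inL ℂ '' (W : Set (κ → ℚ)))) :
    ∀ lam : ℂ →ₗ[ℚ] ℚ, (fun i => lam (u i)) ∈ W := by
  induction hu using Submodule.span_induction with
  | mem m hm =>
    intro lam
    obtain ⟨w, hw, rfl⟩ := hm
    have h1 : (fun i => lam (inL ℂ w i)) = lam 1 • w := by
      funext i
      have h2 := lam_mul lam (w i) 1
      rw [mul_one] at h2
      rw [inL_eq, h2, Pi.smul_apply, smul_eq_mul, mul_comm]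
    rw [h1]
    exact W.smul_mem _ hw
  | zero =>
    intro lam
    have h1 : (fun i => lam ((0 : κ → ℂ) i)) = 0 := by
      funext i
      simp
    rw [h1]
    exact W.zero_mem
  | add a b _ _ ha hb =>
    intro lam
    have h1 : (fun i => lam ((a + b) i)) = (fun i => lam (a i)) + fun i => lam (b i) := by
      funext i
      simp
    rw [h1]
    exact W.add_mem (ha lam) (hb lam)
  | smul c a _ ha =>
    intro lam
    exact ha (lam ∘ₗ LinearMap.mulLeft ℚ c)

end fun_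

lemma der_add_right {κ : Type} [Fintype κ] [DecidableEq κ] {L : Type} [Field L] (y : Matrix κ κ L)
    {n : ℕ} (s t : Tensor κ n L) : der y (s + t) = der y s + der y t := by
  rw [der_eq, der_eq, der_eq, Matrix.mulVec_add]

lemma der_zero_right {κ : Type} [Fintype κ] [DecidableEq κ] {L : Type} [Field L] (y : Matrix κ κ L)
    {n : ℕ} : der y (0 : Tensor κ n L) = 0 := by
  rw [der_eq, Matrix.mulVec_zero]

/-- Derivations preserve spans if they map the generators to the span. -/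
lemma der_span {κ : Type} [Fintype κ] [DecidableEq κ] {y : Matrix κ κ ℂ} {n : ℕ}
    {T : Set (Tensor κ n ℂ)} {S : Submodule ℂ (Tensor κ n ℂ)} (h : ∀ t ∈ T, der y t ∈ S)
    {u : Tensor κ n ℂ} (hu : u ∈ Submodule.span ℂ T) : der y u ∈ S := by
  induction hu using Submodule.span_induction with
  | mem m hm => exact h m hm
  | zero => rw [der_zero_right]; exact S.zero_mem
  | add a b _ _ ha hb => rw [der_add_right]; exact S.add_mem ha hb
  | smul c a _ ha => rw [der_smul_right]; exact S.smul_mem _ ha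

/-- The action preserves spans. -/
lemma act_span {κ : Type} [Fintype κ] [DecidableEq κ] {g : Matrix κ κ ℂ} {n : ℕ}
    {T : Set (Tensor κ n ℂ)} {S : Submodule ℂ (Tensor κ n ℂ)} (h : ∀ t ∈ T, act g t ∈ S)
    {u : Tensor κ n ℂ} (hu : u ∈ Submodule.span ℂ T) : act g u ∈ S := by
  induction hu using Submodule.span_induction with
  | mem m hm => exact h m hm
  | zero => rw [act_eq, Matrix.mulVec_zero]; exact S.zero_mem
  | add a b _ _ ha hb => rw [NC.act_add]; exact S.add_mem ha hb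
  | smul c a _ ha => rw [NC.act_smul]; exact S.smul_mem _ ha

variable (K : IntermediateField ℚ ℂ) (P : Matrix ι ι ℂ)

/-- The rational matrices which stabilise the substructures. -/
def dL' : Submodule ℚ (Matrix ι ι ℚ) where
  carrier := {x | ∀ (n : ℕ) (W : Submodule ℚ (Tensor (ι ⊕ ι) n ℚ)), IsSub K P W →
    ∀ w ∈ W, der (lieDbl x) w ∈ W}
  zero_mem' n W _ w _ := by
    have h : lieDbl (0 : Matrix ι ι ℚ) = 0 := by
      have h1 := lieDbl_smul (0 : ℚ) (0 : Matrix ι ι ℚ)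
      rwa [zero_smul, zero_smul] at h1
    rw [h, Pool.Agent.N202.CF.der_zero_left]
    exact W.zero_mem
  add_mem' {x y} hx hy n W hW w hw := by
    rw [lieDbl_add, der_add_left]
    exact W.add_mem (hx n W hW w hw) (hy n W hW w hw)
  smul_mem' a x hx n W hW w hw := by
    rw [lieDbl_smul, der_smul_left]
    exact W.smul_mem _ (hx n W hW w hw)

/-- The complex matrices which stabilise the substructures. -/
def dC' : Submodule ℂ (Matrix ι ι ℂ) where
  carrier := {x | ∀ (n : ℕ) (W : Submodule ℚ (Tensor (ι ⊕ ι) n ℚ)), IsSub K P W →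
    ∀ w ∈ W, der (lieDbl x) (inL ℂ w) ∈ Submodule.span ℂ (inL ℂ '' (W : Set (Tensor (ι ⊕ ι) n ℚ)))}
  zero_mem' n W _ w _ := by
    have h : lieDbl (0 : Matrix ι ι ℂ) = 0 := by
      have h1 := lieDbl_smul (0 : ℂ) (0 : Matrix ι ι ℂ)
      rwa [zero_smul, zero_smul] at h1
    rw [h, Pool.Agent.N202.CF.der_zero_left]
    exact Submodule.zero_mem _
  add_mem' {x y} hx hy n W hW w hw := by
    rw [lieDbl_add, der_add_left]
    exact Submodule.add_mem _ (hx n W hW w hw) (hy n W hW w hw)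
  smul_mem' a x hx n W hW w hw := by
    rw [lieDbl_smul, der_smul_left]
    exact Submodule.smul_mem _ _ (hx n W hW w hw)

variable {K P}

lemma dC'_iff {x : Matrix ι ι ℂ} : x ∈ dC' K P ↔ ∀ lam : ℂ →ₗ[ℚ] ℚ, x.map lam ∈ dL' K P := by
  constructor
  · intro h lam n W hW w hw
    have h1 := cr_mem (h n W hW w hw) lam
    have h2 : (fun v => lam (der (lieDbl x) (inL ℂ w) v)) = der (lieDbl (x.map lam)) w := by
      funext v
      rw [inL_eq, lam_der, map_lieDbl_lin]
    rwa [h2] at h1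
  · intro h
    refine mem_of_cm (K := ℚ) fun lam n W hW w hw => ?_
    have h1 := h lam n W hW w hw
    have h2 : der (lieDbl (cm lam x)) (inL ℂ w) = inL ℂ (der (lieDbl (x.map lam)) w) := by
      rw [inL_eq, inL_eq, cm_rat, matL_eq, ← map_lieDbl_hom, der_up]
    rw [h2]
    exact Submodule.subset_span ⟨_, h1, rfl⟩

lemma dC'_iff' {x : Matrix ι ι ℂ} : x ∈ dC' K P ↔ x ∈ spc (dL' K P) := by
  rw [mem_spc, dC'_iff]

lemma act_span_iff (hP : P * P⁻¹ = 1) {n : ℕ} {W : Submodule ℚ (Tensor (ι ⊕ ι) n ℚ)}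
    {u : Tensor (ι ⊕ ι) n ℂ} :
    act (dbl P) u ∈ Submodule.span ℂ {t | ∃ w ∈ W, t = act (dbl P) (inL ℂ w)} ↔
      u ∈ Submodule.span ℂ (inL ℂ '' (W : Set (Tensor (ι ⊕ ι) n ℚ))) := by
  constructor
  · intro h
    have h1 := act_span (g := dblI P P⁻¹)
      (S := Submodule.span ℂ (inL ℂ '' (W : Set (Tensor (ι ⊕ ι) n ℚ)))) (fun t ht => by
        obtain ⟨w, hw, rfl⟩ := ht
        rw [NC.act_act, dblI_mul_dbl hP, NC.act_one]
        exact Submodule.subset_span ⟨w, hw, rfl⟩) h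
    rwa [NC.act_act, dblI_mul_dbl hP, NC.act_one] at h1
  · intro h
    refine act_span (fun t ht => ?_) h
    obtain ⟨w, hw, rfl⟩ := ht
    exact Submodule.subset_span ⟨w, hw, rfl⟩

/-- The logarithmic derivatives. -/
lemma log_mem' (hK : ∀ a ∈ K, IsAlgebraic ℚ a) (hP : P * P⁻¹ = 1) (D : Derivation ℚ ℂ ℂ) :
    P⁻¹ * P.map D ∈ dC' K P := by
  intro n W ⟨T, hT, hs⟩ w hw
  rw [← act_span_iff hP]
  have hA : ∀ m ∈ Submodule.span ℂ T, (fun v => D (m v)) ∈ Submodule.span ℂ T := by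
    intro m hm
    induction hm using Submodule.span_induction with
    | mem t ht =>
      have h1 : (fun v => D (t v)) = 0 := by
        funext v
        rw [NC.der_of_alg (hK _ (hT t ht v)), Pi.zero_apply]
      rw [h1]
      exact Submodule.zero_mem _
    | zero =>
      have h1 : (fun v => D ((0 : Tensor (ι ⊕ ι) n ℂ) v)) = 0 := by
        funext v
        simp
      rw [h1]
      exact Submodule.zero_mem _
    | add a b _ _ ha hb =>
      have h1 : (fun v => D ((a + b) v)) = (fun v => D (a v)) + fun v => D (b v) := by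
        funext v
        simp
      rw [h1]
      exact Submodule.add_mem _ ha hb
    | smul c a ha' ha =>
      have h1 : (fun v => D ((c • a) v)) = c • (fun v => D (a v)) + D c • a := by
        funext v
        simp only [Pi.smul_apply, Pi.add_apply, smul_eq_mul]
        rw [Derivation.leibniz, smul_eq_mul, smul_eq_mul]
        ring
      rw [h1]
      exact Submodule.add_mem _ (Submodule.smul_mem _ _ ha) (Submodule.smul_mem _ _ ha')
  have h1 := hA (act (dbl P) (inL ℂ w)) (by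
    rw [← hs]
    exact Submodule.subset_span ⟨w, hw, rfl⟩)
  rw [Pool.Agent.N427.NC.leib_ ℚ ℂ D (ι ⊕ ι) n (dbl P) (dblI P P⁻¹) (dbl_mul_dblI hP) w,
    dbl_D hP, ← hs] at h1
  exact h1

/-- The Lie algebra is a substructure. -/
lemma isSub_dL' (hP : P * P⁻¹ = 1) : IsSubEnd K P (dL' K P) := by
  refine ⟨{z | (∀ i j, z i j ∈ K) ∧ P⁻¹ * z * P ∈ dC' K P}, fun m hm => hm.1, ?_⟩
  have hz : ∀ z : Matrix ι ι ℂ, P * (P⁻¹ * z * P) * P⁻¹ = z := fun z => by
    rw [← Matrix.mul_assoc, ← Matrix.mul_assoc, hP, Matrix.one_mul, Matrix.mul_assoc, hP,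
      Matrix.mul_one]
  apply le_antisymm
  · refine Submodule.span_le.2 ?_
    rintro _ ⟨x, hx, rfl⟩
    refine mem_of_cm (K := K) fun lam => Submodule.subset_span ⟨fun i j => ?_, ?_⟩
    · rw [cm, Matrix.map_apply]
      exact (lam _).2
    · intro n W hW w hw
      have hx' := hx n W hW
      obtain ⟨T, hT, hs⟩ := hW
      rw [← act_span_iff hP, ← der_conj' (dbl_mul_dblI hP), dbl_conj, hz, hs]
      refine der_span (T := T) (fun t ht => ?_) (by
        rw [← hs]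
        exact Submodule.subset_span ⟨w, hw, rfl⟩)
      have h1 : der (lieDbl (P * matL ℂ x * P⁻¹)) t ∈ Submodule.span ℂ T := by
        refine der_span (T := {t | ∃ w ∈ W, t = act (dbl P) (inL ℂ w)}) (fun s hs' => ?_) (by
          rw [hs]
          exact Submodule.subset_span ht)
        obtain ⟨w', hw', rfl⟩ := hs'
        rw [← dbl_conj, der_conj' (dbl_mul_dblI hP), ← hs, act_span_iff hP]
        have h2 : der (lieDbl (matL ℂ x)) (inL ℂ w') = inL ℂ (der (lieDbl x) w') := by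
          rw [inL_eq, inL_eq, matL_eq, ← map_lieDbl_hom, der_up]
        rw [h2]
        exact Submodule.subset_span ⟨_, hx' w' hw', rfl⟩
      have h3 := cv_mem (F := K) (fun m hm i => ⟨⟨_, hT m hm i⟩, rfl⟩) h1 lam
      have h4 : cv lam (der (lieDbl (P * matL ℂ x * P⁻¹)) t) =
          der (lieDbl (cm lam (P * matL ℂ x * P⁻¹))) t := by
        have h5 : t = fun v => algebraMap K ℂ ⟨t v, hT t ht v⟩ := rfl
        have h6 : cm lam (P * matL ℂ x * P⁻¹) =
          ((P * matL ℂ x * P⁻¹).map lam).map (algebraMap K ℂ) := rfl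
        rw [h6, ← map_lieDbl_hom, h5, der_up]
        funext v
        rw [cv, lam_der, map_lieDbl_lin]
      rwa [h4] at h3
  · refine Submodule.span_le.2 ?_
    rintro z ⟨-, hz'⟩
    rw [dC'_iff', ← conj_spc hP, hz] at hz'
    exact hz'

/-- The linear relations over `K` between `1` and the entries of the matrices of
`End V → End V, x ↦ P x P⁻¹` hold on `B`. -/
def Key (K : IntermediateField ℚ ℂ) (P : Matrix ι ι ℂ) (B : Set (Matrix ι ι ℂ)) : Prop :=
  ∀ (x : Matrix ι ι ℚ) (f : ι → ι → K),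
    (∑ i, ∑ j, (f i j : ℂ) * (P * matL ℂ x * P⁻¹) i j) ∈ K → ∀ Z ∈ B, ∀ Z', Z * Z' = 1 →
      ∑ i, ∑ j, (f i j : ℂ) * (Z * matL ℂ x * Z') i j =
        ∑ i, ∑ j, (f i j : ℂ) * (P * matL ℂ x * P⁻¹) i j

lemma sum_smul (f : ι → ι → K) (c : ℂ) (m : Matrix ι ι ℂ) :
    ∑ i, ∑ j, (f i j : ℂ) * (c • m) i j = c * ∑ i, ∑ j, (f i j : ℂ) * m i j := by
  simp only [Matrix.smul_apply, smul_eq_mul, Finset.mul_sum]
  refine Finset.sum_congr rfl fun i _ => Finset.sum_congr rfl fun j _ => ?_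
  ring

lemma key_of_card {B : Set (Matrix ι ι ℂ)} (hP : P * P⁻¹ = 1)
    (hR : NoNewRelations K P B (Fintype.card ι)) : Key K P B := by
  intro x f hc
  have hadj : ∀ Z Z' : Matrix ι ι ℂ, Z * Z' = 1 → Z.adjugate = Z.det • Z' := by
    intro Z Z' h
    have h1 := congrArg (fun M => Z' * M) (Matrix.mul_adjugate Z)
    simp only [← Matrix.mul_assoc, mul_eq_one_comm.1 h, Matrix.one_mul, Matrix.mul_smul,
      Matrix.mul_one] at h1
    exact h1
  have e := aeval_ap f x ⟨_, hc⟩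
  have e2 : ∀ Z Z' : Matrix ι ι ℂ, Z * Z' = 1 → MvPolynomial.aeval (fun r => Z r.1 r.2)
      (ap f x ⟨_, hc⟩) = Z.det * ((∑ i, ∑ j, (f i j : ℂ) * (Z * matL ℂ x * Z') i j) -
        ∑ i, ∑ j, (f i j : ℂ) * (P * matL ℂ x * P⁻¹) i j) := by
    intro Z Z' h
    rw [e, hadj Z Z' h, Matrix.mul_smul, sum_smul]
    ring
  intro Z hZ Z' h
  have h1 := hR (ap f x ⟨_, hc⟩) (deg_ap _ _ _) (by rw [e2 P P⁻¹ hP, sub_self, mul_zero]) Z hZ
  rw [e2 Z Z' h] at h1
  have h2 : Z.det ≠ 0 := by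
    intro h0
    have h3 := congrArg Matrix.det h
    rw [Matrix.det_mul, h0, zero_mul, Matrix.det_one] at h3
    exact zero_ne_one h3
  exact sub_eq_zero.1 ((mul_eq_zero.1 h1).resolve_left h2)

section quad

/-- The function is given by a polynomial over `K` of degree at most two. -/
def IsQuad (K : IntermediateField ℚ ℂ) (F : Matrix ι ι ℂ → ℂ) : Prop :=
  ∃ f : MvPolynomial (ι × ι) K, f.totalDegree ≤ 2 ∧
    ∀ Z : Matrix ι ι ℂ, MvPolynomial.aeval (fun p => Z p.1 p.2) f = F Z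

lemma IsQuad.mul (a b c d : ι) : IsQuad K fun Z : Matrix ι ι ℂ => Z a b * Z c d := by
  refine ⟨MvPolynomial.X (a, b) * MvPolynomial.X (c, d), ?_, fun Z => ?_⟩
  · refine (MvPolynomial.totalDegree_mul _ _).trans ?_
    rw [MvPolynomial.totalDegree_X, MvPolynomial.totalDegree_X]
  · rw [map_mul, MvPolynomial.aeval_X, MvPolynomial.aeval_X]

lemma IsQuad.const_mul {F : Matrix ι ι ℂ → ℂ} (h : IsQuad K F) {r : ℂ} (hr : r ∈ K) :
    IsQuad K fun Z => r * F Z := by
  obtain ⟨f, hf, h⟩ := h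
  refine ⟨MvPolynomial.C ⟨r, hr⟩ * f, ?_, fun Z => ?_⟩
  · refine (MvPolynomial.totalDegree_mul _ _).trans ?_
    rw [MvPolynomial.totalDegree_C, zero_add]
    exact hf
  · rw [map_mul, MvPolynomial.algHom_C, h]
    rfl

lemma IsQuad.sum {κ : Type} {s : Finset κ} {F : κ → Matrix ι ι ℂ → ℂ}
    (h : ∀ k ∈ s, IsQuad K (F k)) : IsQuad K fun Z => ∑ k ∈ s, F k Z := by
  choose! f hf h using h
  refine ⟨∑ k ∈ s, f k, MvPolynomial.totalDegree_finsetSum_le fun k hk => hf k hk, fun Z => ?_⟩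
  rw [map_sum]
  exact Finset.sum_congr rfl fun k hk => h k hk Z

lemma IsQuad.sub {F G : Matrix ι ι ℂ → ℂ} (h : IsQuad K F) (h' : IsQuad K G) :
    IsQuad K fun Z => F Z - G Z := by
  obtain ⟨f, hf, h⟩ := h
  obtain ⟨g, hg, h'⟩ := h'
  exact ⟨f - g, (MvPolynomial.totalDegree_sub _ _).trans (max_le hf hg), fun Z => by
    rw [map_sub, h, h']⟩

lemma IsQuad.holds {B : Set (Matrix ι ι ℂ)} (hR : NoNewRelations K P B 2)
    {F : Matrix ι ι ℂ → ℂ} (h : IsQuad K F) (h0 : F P = 0) {Z : Matrix ι ι ℂ} (hZ : Z ∈ B) :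
    F Z = 0 := by
  obtain ⟨f, hf, h⟩ := h
  rw [← h]
  exact hR f hf (by rw [h, h0]) Z hZ

lemma IsQuad.left {A C : Matrix ι ι ℂ} (hA : ∀ i j, A i j ∈ K) (hC : ∀ i j, C i j ∈ K) (i j : ι) :
    IsQuad K fun Z : Matrix ι ι ℂ => (Z * A * Zᵀ * C) i j := by
  have h1 : (fun Z : Matrix ι ι ℂ => (Z * A * Zᵀ * C) i j) = fun Z : Matrix ι ι ℂ =>
      ∑ m, ∑ l, ∑ k, (A k l * C m j) * (Z i k * Z m l) := by
    funext Z
    rw [Matrix.mul_apply]
    refine Finset.sum_congr rfl fun m _ => ?_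
    rw [Matrix.mul_apply, Finset.sum_mul]
    refine Finset.sum_congr rfl fun l _ => ?_
    rw [Matrix.mul_apply, Matrix.transpose_apply, Finset.sum_mul, Finset.sum_mul]
    refine Finset.sum_congr rfl fun k _ => ?_
    ring
  rw [h1]
  exact IsQuad.sum fun m _ => IsQuad.sum fun l _ => IsQuad.sum fun k _ =>
    (IsQuad.mul i k m l).const_mul (mul_mem (hA k l) (hC m j))

lemma IsQuad.right {C : Matrix ι ι ℂ} (hC : ∀ i j, C i j ∈ K) (i j : ι) :
    IsQuad K fun Z : Matrix ι ι ℂ => (Zᵀ * C * Z) i j := by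
  have h1 : (fun Z : Matrix ι ι ℂ => (Zᵀ * C * Z) i j) = fun Z : Matrix ι ι ℂ =>
      ∑ m, ∑ l, C l m * (Z l i * Z m j) := by
    funext Z
    rw [Matrix.mul_apply]
    refine Finset.sum_congr rfl fun m _ => ?_
    rw [Matrix.mul_apply, Finset.sum_mul]
    refine Finset.sum_congr rfl fun l _ => ?_
    rw [Matrix.transpose_apply]
    ring
  rw [h1]
  exact IsQuad.sum fun m _ => IsQuad.sum fun l _ => (IsQuad.mul l i m j).const_mul (hC l m)

lemma rat_mem (r : ℚ) : (r : ℂ) ∈ K := by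
  rw [← eq_ratCast (algebraMap ℚ ℂ) r]
  exact K.algebraMap_mem r

lemma key_of_pol {B : Set (Matrix ι ι ℂ)} (hP : P * P⁻¹ = 1) (hpol : IsPolarised K P)
    (hR : NoNewRelations K P B 2) : Key K P B := by
  obtain ⟨ψ, q, c, hψ, hc, hq, hpq⟩ := hpol
  intro x f hx Z hZ Z' hZZ
  rcases isEmpty_or_nonempty ι with hι | hι
  · simp
  have hmat : ∀ a b, matL ℂ ψ a b = (ψ a b : ℂ) := fun _ _ => rfl
  have hP' : P⁻¹ * P = 1 := mul_eq_one_comm.1 hP
  have hψ' : matL ℂ ψ * matL ℂ ψ⁻¹ = 1 := by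
    rw [← Pool.Agent.N202.CF.matL_mul, Matrix.mul_nonsing_inv _ (isUnit_iff_ne_zero.2 hψ),
      Pool.Agent.N202.CF.matL_one]
  have hψ'' : matL ℂ ψ⁻¹ * matL ℂ ψ = 1 := mul_eq_one_comm.1 hψ'
  obtain ⟨a, b, hab⟩ : ∃ a b, ψ a b ≠ 0 := by
    by_contra hcon
    push Not at hcon
    apply hψ
    have h0 : ψ = 0 := by
      ext a b
      exact hcon a b
    rw [h0]
    exact Matrix.det_zero
  have hab' : (ψ a b : ℂ) ≠ 0 := by exact_mod_cast hab
  -- the factor
  have hfac : ∀ i j, (Zᵀ * q * Z) i j = ((Zᵀ * q * Z) a b / ψ a b) * ψ i j := by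
    intro i j
    have h1 : IsQuad K fun Z : Matrix ι ι ℂ =>
        (ψ a b : ℂ) * (Zᵀ * q * Z) i j - (ψ i j : ℂ) * (Zᵀ * q * Z) a b :=
      ((IsQuad.right hq i j).const_mul (rat_mem _)).sub
        ((IsQuad.right hq a b).const_mul (rat_mem _))
    have h2 := h1.holds hR (by
      rw [hpq]
      simp only [Matrix.smul_apply, matL, Matrix.map_apply, smul_eq_mul]
      ring) hZ
    beta_reduce at h2
    field_simp
    linear_combination h2
  set mu := (Zᵀ * q * Z) a b / ψ a b with hmu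
  have hZq : Zᵀ * q * Z = mu • matL ℂ ψ := by
    ext i j
    rw [hfac, Matrix.smul_apply, smul_eq_mul, matL, Matrix.map_apply]
  have hdet : ∀ M : Matrix ι ι ℂ, M * matL ℂ ψ⁻¹ * matL ℂ ψ = M := fun M => by
    rw [Matrix.mul_assoc, hψ'', Matrix.mul_one]
  have hq0 : q.det ≠ 0 := by
    intro h0
    have h1 := congrArg Matrix.det hpq
    rw [Matrix.det_mul, Matrix.det_mul, h0, mul_zero, zero_mul, Matrix.det_smul] at h1
    have h2 : (matL ℂ ψ).det ≠ 0 := by
      intro h3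
      have h4 := congrArg Matrix.det hψ'
      rw [Matrix.det_mul, h3, zero_mul, Matrix.det_one] at h4
      exact zero_ne_one h4
    exact (mul_ne_zero (pow_ne_zero _ hc) h2) h1.symm
  have hZ0 : Z.det ≠ 0 := by
    intro h0
    have h3 := congrArg Matrix.det hZZ
    rw [Matrix.det_mul, h0, zero_mul, Matrix.det_one] at h3
    exact zero_ne_one h3
  have hmu0 : mu ≠ 0 := by
    intro h0
    have h1 := congrArg Matrix.det hZq
    rw [h0, zero_smul, Matrix.det_zero, Matrix.det_mul, Matrix.det_mul,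
      Matrix.det_transpose] at h1
    exact (mul_ne_zero (mul_ne_zero hZ0 hq0) hZ0) h1
  -- the inverse
  have hinv : ∀ (Y Y' : Matrix ι ι ℂ) (d : ℂ), d ≠ 0 → Y * Y' = 1 → Yᵀ * q * Y = d • matL ℂ ψ →
      d • Y' = matL ℂ ψ⁻¹ * Yᵀ * q := by
    intro Y Y' d hd hY h1
    have h2 := congrArg (fun M => matL ℂ ψ⁻¹ * M * Y') h1
    beta_reduce at h2
    rw [Matrix.mul_smul, hψ'', Matrix.smul_mul, Matrix.one_mul] at h2
    rw [← h2]
    simp only [Matrix.mul_assoc, hY, Matrix.mul_one]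
  -- the relation
  have hrel : ∀ (Y Y' : Matrix ι ι ℂ) (d : ℂ), d ≠ 0 → Y * Y' = 1 → Yᵀ * q * Y = d • matL ℂ ψ →
      d * (∑ i, ∑ j, (f i j : ℂ) * (Y * matL ℂ x * Y') i j) =
        ∑ i, ∑ j, (f i j : ℂ) * (Y * (matL ℂ x * matL ℂ ψ⁻¹) * Yᵀ * q) i j := by
    intro Y Y' d hd hY h1
    rw [← sum_smul, ← Matrix.mul_smul, hinv Y Y' d hd hY h1]
    simp only [Matrix.mul_assoc]
  set r := ∑ i, ∑ j, (f i j : ℂ) * (P * matL ℂ x * P⁻¹) i j with hr
  have hQ : IsQuad K fun Y : Matrix ι ι ℂ =>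
      (∑ i, ∑ j, (f i j : ℂ) * (Y * (matL ℂ x * matL ℂ ψ⁻¹) * Yᵀ * q) i j) -
        (r * (ψ a b : ℂ)⁻¹) * (Yᵀ * q * Y) a b := by
    refine IsQuad.sub (IsQuad.sum fun i _ => IsQuad.sum fun j _ => ?_) ?_
    · refine (IsQuad.left (fun k l => ?_) hq i j).const_mul (f i j).2
      rw [← Pool.Agent.N202.CF.matL_mul, matL, Matrix.map_apply]
      exact rat_mem _
    · exact (IsQuad.right hq a b).const_mul (mul_mem hx (inv_mem (rat_mem _)))
  have h5 := hQ.holds hR (by
    rw [← hrel P P⁻¹ c hc hP hpq, ← hr, hpq, Matrix.smul_apply, smul_eq_mul, hmat]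
    field_simp
    ring) hZ
  beta_reduce at h5
  rw [← hrel Z Z' mu hmu0 hZZ hZq, hZq, Matrix.smul_apply, smul_eq_mul, hmat] at h5
  have h6 : mu * ((∑ i, ∑ j, (f i j : ℂ) * (Z * matL ℂ x * Z') i j) - r) = 0 := by
    rw [← h5]
    field_simp
  exact sub_eq_zero.1 ((mul_eq_zero.1 h6).resolve_left hmu0)

end quad

section mono

variable {B : Set (Matrix ι ι ℂ)} {𝔥 : Submodule ℂ (Matrix ι ι ℂ)} (hM : IsMonodromy B 𝔥)
  (hPB : P ∈ B)

include hM hPB in
/-- Brackets in the Lie algebra. -/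
lemma bracket_gen (hP : P * P⁻¹ = 1) (hR : Key K P B) {x : Matrix ι ι ℚ}
    (hx : ∀ f : ι → ι → K, (∀ m ∈ Submodule.span ℂ {m | ∃ x ∈ dL' K P, m = P * matL ℂ x * P⁻¹},
      ∑ i, ∑ j, (f i j : ℂ) * m i j = 0) → ∑ i, ∑ j, (f i j : ℂ) * (P * matL ℂ x * P⁻¹) i j ∈ K)
    {y : Matrix ι ι ℂ} (hy : y ∈ 𝔥) : y * matL ℂ x - matL ℂ x * y ∈ spc (dL' K P) := by
  have hP' : P⁻¹ * P = 1 := mul_eq_one_comm.1 hP
  obtain ⟨T, hT, hs⟩ := isSub_dL' (K := K) hP
  rw [← conj_spc hP, hs]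
  refine sep hT fun f hf => ?_
  -- the functional
  let φ : Matrix ι ι ℂ →ₗ[ℂ] ℂ :=
    { toFun := fun m => ∑ i, ∑ j, (f i j : ℂ) * m i j
      map_add' := fun a b => by
        simp only [Matrix.add_apply, mul_add, Finset.sum_add_distrib]
      map_smul' := fun c a => by
        simp only [Matrix.smul_apply, smul_eq_mul, RingHom.id_apply, Finset.mul_sum]
        refine Finset.sum_congr rfl fun i _ => Finset.sum_congr rfl fun j _ => ?_
        ring }
  have hφ : ∀ m, φ m = ∑ i, ∑ j, (f i j : ℂ) * m i j := fun _ => rfl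
  have hφT : ∀ m ∈ Submodule.span ℂ T, φ m = 0 := by
    intro m hm
    have h1 : Submodule.span ℂ T ≤ LinearMap.ker φ := Submodule.span_le.2 fun m hm => hf m hm
    exact h1 hm
  rw [← hφ]
  -- the value is in the field
  have hc : φ (P * matL ℂ x * P⁻¹) ∈ K := by
    refine hx f fun m hm => ?_
    rw [hs] at hm
    exact hφT m hm
  -- the relation
  have key : ∀ Z ∈ B, ∀ Z', Z * Z' = 1 → φ (Z * matL ℂ x * Z') = φ (P * matL ℂ x * P⁻¹) :=
    hR x f hc
  -- the derivative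
  have h2 := deriv_const ((φ ∘ₗ (LinearMap.mulLeft ℂ P) ∘ₗ (LinearMap.mulRight ℂ P⁻¹)))
    (matL ℂ x) y (φ (P * matL ℂ x * P⁻¹)) fun t => by
      have hB : P * NormedSpace.exp (t • y) ∈ B := hM.stable P hPB _ (Submodule.smul_mem _ _ hy)
      have hinv : P * NormedSpace.exp (t • y) * (NormedSpace.exp (-(t • y)) * P⁻¹) = 1 := by
        rw [Matrix.mul_assoc, ← Matrix.mul_assoc (NormedSpace.exp (t • y)), exp_inv',
          Matrix.one_mul, hP]
      have h3 := key _ hB _ hinv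
      rw [← h3, LinearMap.comp_apply, LinearMap.comp_apply, LinearMap.mulLeft_apply,
        LinearMap.mulRight_apply]
      congr 1
      simp only [Matrix.mul_assoc]
  rw [LinearMap.comp_apply, LinearMap.comp_apply, LinearMap.mulLeft_apply,
    LinearMap.mulRight_apply, ← Matrix.mul_assoc] at h2
  exact h2

include hM hPB in
/-- The brackets with the normaliser. -/
lemma bracket_mem (hK : ∀ a ∈ K, IsAlgebraic ℚ a) (hK' : ∀ a : ℂ, IsAlgebraic ℚ a → a ∈ K)
    (hP : P * P⁻¹ = 1) (hR : Key K P B) {x : Matrix ι ι ℚ}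
    (hx : ∀ d ∈ dL' K P, d * x - x * d ∈ dL' K P) {y : Matrix ι ι ℂ} (hy : y ∈ 𝔥) :
    y * matL ℂ x - matL ℂ x * y ∈ spc (dL' K P) := by
  refine bracket_gen hM hPB hP hR (fun f hf => hK' _ (NC.alg_of_der fun D => ?_)) hy
  have h1 : D (∑ i, ∑ j, (f i j : ℂ) * (P * matL ℂ x * P⁻¹) i j) =
      ∑ i, ∑ j, (f i j : ℂ) * ((P * matL ℂ x * P⁻¹).map D) i j := by
    rw [map_sum]
    refine Finset.sum_congr rfl fun i _ => ?_
    rw [map_sum]
    refine Finset.sum_congr rfl fun j _ => ?_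
    rw [Derivation.leibniz, NC.der_of_alg (hK _ (f i j).2), smul_zero, add_zero, smul_eq_mul]
    rfl
  rw [h1, NC.map_D_conj D hP]
  apply hf
  rw [conj_spc hP, mem_spc]
  intro lam
  rw [NC.map_comm]
  exact hx _ (dC'_iff.1 (log_mem' hK hP D) lam)

include hM hPB in
/-- The monodromy normalises the Lie algebra. -/
lemma norm_mem (hP : P * P⁻¹ = 1) (hR : Key K P B)
    {x : Matrix ι ι ℚ} (hx : x ∈ dL' K P) {y : Matrix ι ι ℂ} (hy : y ∈ 𝔥) :
    y * matL ℂ x - matL ℂ x * y ∈ spc (dL' K P) := by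
  refine bracket_gen hM hPB hP hR (fun f hf => ?_) hy
  rw [hf _ (Submodule.subset_span ⟨x, hx, rfl⟩)]
  exact zero_mem K

include hM hPB in
/-- **The Lie algebra of the monodromy stabilises the substructures.** -/
theorem mono_le' (hK : ∀ a ∈ K, IsAlgebraic ℚ a) (hK' : ∀ a : ℂ, IsAlgebraic ℚ a → a ∈ K)
    (hP : P * P⁻¹ = 1) (hR : Key K P B) (hcl : ∀ x ∈ dL' K P, ∀ y ∈ dL' K P,
      x * y - y * x ∈ dL' K P) : 𝔥 ≤ dC' K P := by
  have hb := fun {x : Matrix ι ι ℚ} hx {y : Matrix ι ι ℂ} hy =>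
    bracket_mem hM hPB hK hK' hP hR (x := x) hx (y := y) hy
  -- elements of the Lie algebra
  have ha : ∀ y ∈ 𝔥, ∀ d ∈ dL' K P, y * matL ℂ d - matL ℂ d * y ∈ spc (dL' K P) :=
    fun y hy d hd => hb (fun d' hd' => hcl d' hd' d hd) hy
  have hc : ∀ y ∈ 𝔥, ∀ lam : ℂ →ₗ[ℚ] ℚ, ∀ y' ∈ 𝔥,
      y' * matL ℂ (y.map lam) - matL ℂ (y.map lam) * y' ∈ spc (dL' K P) := by
    intro y hy lam y' hy'
    refine hb (fun d hd => ?_) hy'
    have e2 := mem_spc.1 (ha y hy d hd) lam
    rw [NC.map_comm] at e2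
    have e4 := (dL' K P).neg_mem e2
    rwa [neg_sub] at e4
  intro y hy
  rw [hM.perfect] at hy
  refine Submodule.span_le.2 ?_ hy
  rintro _ ⟨a, ha1, b, hb1, rfl⟩
  show a * b - b * a ∈ dC' K P
  rw [dC'_iff']
  have h3 : b ∈ Submodule.comap ((LinearMap.mulLeft ℂ a - LinearMap.mulRight ℂ a :
      Matrix ι ι ℂ →ₗ[ℂ] Matrix ι ι ℂ)) (spc (dL' K P)) := by
    refine mem_of_cm (K := ℚ) fun lam => ?_
    rw [cm_rat, Submodule.mem_comap, LinearMap.sub_apply, LinearMap.mulLeft_apply,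
      LinearMap.mulRight_apply]
    exact hc b hb1 lam a ha1
  rwa [Submodule.mem_comap, LinearMap.sub_apply, LinearMap.mulLeft_apply,
    LinearMap.mulRight_apply] at h3

omit hM hPB in
lemma dL'_bracket : ∀ x ∈ dL' K P, ∀ y ∈ dL' K P, x * y - y * x ∈ dL' K P := by
  intro x hx y hy n W hW w hw
  have h1 := hx n W hW _ (hy n W hW w hw)
  have h2 := hy n W hW _ (hx n W hW w hw)
  rw [der_eq, der_eq] at h1 h2
  rw [lieDbl_bracket, der_eq, dp_bracket, Matrix.sub_mulVec, ← Matrix.mulVec_mulVec,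
    ← Matrix.mulVec_mulVec]
  exact W.sub_mem h1 h2

omit hM hPB in
/-- The line of a class is a substructure. -/
lemma isSub_line {n : ℕ} {t : Tensor (ι ⊕ ι) n ℚ} (ht : IsClass K P t) :
    IsSub K P (Submodule.span ℚ {t}) := by
  obtain ⟨c, hc, hv⟩ := ht
  refine ⟨{c • act (dbl P) (inL ℂ t)}, ?_, ?_⟩
  · rintro _ rfl v
    exact hv v
  apply le_antisymm
  · refine Submodule.span_le.2 ?_
    rintro _ ⟨w, hw, rfl⟩
    obtain ⟨q, rfl⟩ := Submodule.mem_span_singleton.1 hw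
    have h1 : act (dbl P) (inL ℂ (q • t)) = ((q : ℂ) * c⁻¹) • (c • act (dbl P) (inL ℂ t)) := by
      rw [smul_smul, mul_assoc, inv_mul_cancel₀ hc, mul_one, ← NC.act_smul]
      congr 1
      funext v
      simp [inL]
    rw [h1]
    exact Submodule.smul_mem _ _ (Submodule.subset_span rfl)
  · refine Submodule.span_le.2 ?_
    rintro _ rfl
    exact Submodule.smul_mem _ _ (Submodule.subset_span ⟨t, Submodule.subset_span rfl, rfl⟩)

end mono

end Pool.Agent.N202.QD
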