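import Pool.Agent.N202.QD.SubD
import Pool.Agent.N202.TB.Core2
import Pool.Agent.N618.TB.Dp

/-!
# Semisimple `End V`, and the dichotomy
-/

set_option linter.unusedSectionVars false

namespace Pool.Agent.N202.QD

open Matrix
open Pool.Agent.N202.CF (Tensor inL act matL der der_eq act_eq der_add_left der_smul_left IsComb)
open Pool.Agent.N202.TB Pool.Agent.N996.BP

variable {ι : Type} [Fintype ι] [DecidableEq ι]

section ar

variable {L : Type} [Field L]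

/-- The tensor of an endomorphism. -/
def ar : Matrix ι ι L →ₗ[L] Tensor (ι ⊕ ι) 2 L where
  toFun x := vec2 (fromBlocks 0 x 0 0)
  map_add' x y := by
    rw [← map_add, fromBlocks_add]
    simp
  map_smul' c x := by
    rw [RingHom.id_apply, ← map_smul, fromBlocks_smul]
    simp

lemma ar_apply (x : Matrix ι ι L) : ar x = vec2 (fromBlocks 0 x 0 0) := rfl

lemma ar_inj : Function.Injective (ar : Matrix ι ι L →ₗ[L] Tensor (ι ⊕ ι) 2 L) := by
  intro x y h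
  have h1 := vec2.injective h
  exact (fromBlocks_inj.1 h1).2.1

lemma ar_act (g x : Matrix ι ι L) : act (dbl g) (ar x) = ar (g * x * g⁻¹) := by
  have h1 : kp (Fin 2) (dbl g) *ᵥ vec2 (fromBlocks 0 x 0 0) =
      vec2 (dbl g * fromBlocks 0 x 0 0 * (dbl g)ᵀ) := kp_two _ _
  rw [act_eq, ar_apply, ar_apply, h1, dbl, fromBlocks_transpose, fromBlocks_multiply,
    fromBlocks_multiply]
  simp

lemma ar_der (y x : Matrix ι ι L) : der (lieDbl y) (ar x) = ar (y * x - x * y) := by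
  have h1 : dp (Fin 2) (lieDbl y) *ᵥ vec2 (fromBlocks 0 x 0 0) =
      vec2 (lieDbl y * fromBlocks 0 x 0 0 + fromBlocks 0 x 0 0 * (lieDbl y)ᵀ) :=
    Pool.Agent.N618.TB.dptwo_ L _ _ _
  rw [der_eq, ar_apply, ar_apply, h1, lieDbl, fromBlocks_transpose, fromBlocks_multiply,
    fromBlocks_multiply, fromBlocks_add]
  simp [sub_eq_add_neg]

lemma ar_inL (x : Matrix ι ι ℚ) : inL ℂ (ar x) = ar (matL ℂ x) := by
  funext v
  rw [inL, ar_apply, ar_apply, vec2_apply, vec2_apply]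
  rcases v 0 with a | a <;> rcases v 1 with b | b <;> simp [matL]

lemma ar_entry {R : Type*} [SetLike R L] {S : R} (h0 : (0 : L) ∈ S) {x : Matrix ι ι L}
    (hx : ∀ i j, x i j ∈ S) (v : Fin 2 → ι ⊕ ι) : ar x v ∈ S := by
  rw [ar_apply, vec2_apply]
  rcases v 0 with a | a <;> rcases v 1 with b | b <;> simp [h0, hx]

end ar

variable {K : IntermediateField ℚ ℂ} {P : Matrix ι ι ℂ}

lemma isSub_ar {W : Submodule ℚ (Matrix ι ι ℚ)} (hW : IsSubEnd K P W) :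
    IsSub K P (W.map (ar : Matrix ι ι ℚ →ₗ[ℚ] Tensor (ι ⊕ ι) 2 ℚ)) := by
  obtain ⟨T, hT, hs⟩ := hW
  refine ⟨ar '' T, ?_, ?_⟩
  · rintro _ ⟨m, hm, rfl⟩ v
    exact ar_entry (zero_mem K) (hT m hm) v
  · rw [← Submodule.map_span, ← hs, Submodule.map_span]
    congr 1
    ext t
    constructor
    · rintro ⟨_, ⟨x, hx, rfl⟩, rfl⟩
      exact ⟨_, ⟨x, hx, rfl⟩, by rw [ar_inL, ar_act]⟩
    · rintro ⟨_, ⟨x, hx, rfl⟩, rfl⟩
      exact ⟨ar x, ⟨x, hx, rfl⟩, by rw [ar_inL, ar_act]⟩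

/-- The Lie algebra normalises the substructures of `End V`. -/
lemma ad_mem {W : Submodule ℚ (Matrix ι ι ℚ)} (hW : IsSubEnd K P W) {d x : Matrix ι ι ℚ}
    (hd : d ∈ dL' K P) (hx : x ∈ W) : d * x - x * d ∈ W := by
  have h1 := hd 2 _ (isSub_ar hW) (ar x) ⟨x, hx, rfl⟩
  rw [ar_der] at h1
  obtain ⟨y, hy, he⟩ := h1
  rw [← ar_inj he]
  exact hy

section mono

variable {B : Set (Matrix ι ι ℂ)} {𝔥 : Submodule ℂ (Matrix ι ι ℂ)} (hM : IsMonodromy B 𝔥)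
  (hPB : P ∈ B)

include hM hPB in
/-- **The Lie algebra of the monodromy stabilises the substructures: semisimple case.** -/
theorem mono_le2 (hK : ∀ a ∈ K, IsAlgebraic ℚ a) (hP : P * P⁻¹ = 1)
    (hR : NoNewRelations K P B 2) (hE : EndOver K P) (hS : EndSemisimple K P) : 𝔥 ≤ dC' K P := by
  obtain ⟨W', hW', hc⟩ := hS _ (isSub_dL' (K := K) hP)
  have hW := isSub_dL' (K := K) hP
  set W := dL' K P with hWd
  have hi : W ⊓ W' = ⊥ := hc.inf_eq_bot
  obtain ⟨p, h1, h2⟩ : ∃ p : Matrix ι ι ℚ →ₗ[ℚ] Matrix ι ι ℚ, (∀ x, p x ∈ W) ∧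
      ∀ x, x - p x ∈ W' := by
    refine ⟨W.subtype ∘ₗ W.projectionOnto W' hc, fun x => ?_, fun x => ?_⟩
    · rw [LinearMap.comp_apply]
      exact Subtype.mem _
    · have h3 : x - (W.subtype ∘ₗ W.projectionOnto W' hc) x ∈ (W.projectionOnto W' hc).ker := by
        rw [LinearMap.mem_ker, map_sub, LinearMap.comp_apply, Submodule.subtype_apply,
          Submodule.projectionOnto_apply_left, sub_self]
      rwa [Submodule.ker_projectionOnto] at h3
  have hR1 : NoNewRelations K P B 1 := fun f hf => hR f (hf.trans one_le_two)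
  have hdC : ∀ u : Matrix ι ι ℂ, u ∈ dC' K P ↔ u ∈ spc W := fun u => dC'_iff'
  have hfix := p_fix hi h1 h2
  -- (a)
  have ha : ∀ y ∈ 𝔥, ∀ d ∈ spc W, y * d - d * y ∈ spc W := by
    intro y hy d hd
    have e := ext_comm hM hPB hP hR hW hW' hi h1 h2 hy d
    rw [ext_fix hfix hd] at e
    rw [← e]
    exact ext_mem h1 _
  -- (c)
  have hc' : ∀ y ∈ 𝔥, ∀ lam : ℂ →ₗ[ℚ] ℚ, ∀ y' ∈ 𝔥,
      y' * matL ℂ (y.map lam - p (y.map lam)) - matL ℂ (y.map lam - p (y.map lam)) * y' = 0 := by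
    intro y hy lam y' hy'
    refine comm_of_rat hM hPB hP hR1 (hE _ (alg_of_comm hP fun D mu => ?_)) hy'
    have hv : (P⁻¹ * P.map D).map mu ∈ W := dC'_iff.1 (log_mem' hK hP D) mu
    have e1 : y * matL ℂ ((P⁻¹ * P.map D).map mu) - matL ℂ ((P⁻¹ * P.map D).map mu) * y ∈ spc W :=
      ha y hy _ (Submodule.subset_span ⟨_, hv, rfl⟩)
    have e2 := mem_spc.1 e1 lam
    rw [NC.map_comm] at e2
    have e3 : (P⁻¹ * P.map D).map mu * y.map lam - y.map lam * (P⁻¹ * P.map D).map mu ∈ W := by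
      have e4 := W.neg_mem e2
      rwa [neg_sub] at e4
    have e4 := p_comm hK hP hW hW' hi h1 h2 D mu (y.map lam)
    rw [hfix _ e3] at e4
    rw [Matrix.mul_sub, Matrix.sub_mul, sub_sub_sub_comm, e4, sub_self]
  -- (d)
  have hd : ∀ y ∈ 𝔥, ∀ y' ∈ 𝔥, y' * (y - ext p y) - (y - ext p y) * y' = 0 := by
    intro y hy y' hy'
    have h3 : y - ext p y ∈ LinearMap.ker
        ((LinearMap.mulLeft ℂ y' - LinearMap.mulRight ℂ y' : Matrix ι ι ℂ →ₗ[ℂ] Matrix ι ι ℂ)) := by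
      refine mem_of_cm (K := ℚ) fun lam => ?_
      have h4 : (y - ext p y).map lam = y.map lam - p (y.map lam) := by
        rw [← ext_comp_lam]
        ext a b
        simp
      rw [cm_rat, h4, LinearMap.mem_ker, LinearMap.sub_apply, LinearMap.mulLeft_apply,
        LinearMap.mulRight_apply]
      exact hc' y hy lam y' hy'
    rwa [LinearMap.mem_ker, LinearMap.sub_apply, LinearMap.mulLeft_apply,
      LinearMap.mulRight_apply] at h3
  -- (e)
  intro y hy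
  rw [hM.perfect] at hy
  refine Submodule.span_le.2 ?_ hy
  rintro _ ⟨a, ha1, b, hb1, rfl⟩
  show a * b - b * a ∈ dC' K P
  rw [hdC]
  have e1 := hd a ha1 b hb1
  have e2 : a * b - b * a = -(b * ext p a - ext p a * b) := by
    rw [Matrix.mul_sub, Matrix.sub_mul] at e1
    have e3 : b * a - a * b = b * ext p a - ext p a * b := by
      rw [← sub_eq_zero, ← e1]
      abel
    rw [← e3, neg_sub]
  rw [e2]
  exact Submodule.neg_mem _ (ha b hb1 _ (ext_mem h1 _))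

include hM in
/-- From substructures to classes. -/
lemma kill_of_le (hle : 𝔥 ≤ dC' K P) {n : ℕ} {t : Tensor (ι ⊕ ι) n ℚ} (ht : IsClass K P t)
    {y : Matrix ι ι ℂ} (hy : y ∈ 𝔥) : der (lieDbl y) (inL ℂ t) = 0 := by
  have hl : ∀ y ∈ 𝔥, ∃ c : ℂ, der (lieDbl y) (inL ℂ t) = c • inL ℂ t := by
    intro y hy
    have h1 := hle hy n _ (isSub_line ht) t (Submodule.subset_span (Set.mem_singleton t))
    have h2 : Submodule.span ℂ (inL ℂ '' ((Submodule.span ℚ {t} : Submodule ℚ _) :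
        Set (Tensor (ι ⊕ ι) n ℚ))) ≤ Submodule.span ℂ {inL ℂ t} := by
      refine Submodule.span_le.2 ?_
      rintro _ ⟨w, hw, rfl⟩
      obtain ⟨q, rfl⟩ := Submodule.mem_span_singleton.1 hw
      refine Submodule.mem_span_singleton.2 ⟨(q : ℂ), ?_⟩
      funext v
      simp [inL]
    obtain ⟨c, hc⟩ := Submodule.mem_span_singleton.1 (h2 h1)
    exact ⟨c, hc.symm⟩
  rw [hM.perfect] at hy
  induction hy using Submodule.span_induction with
  | mem m hm =>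
    obtain ⟨a, ha, b, hb, rfl⟩ := hm
    obtain ⟨c, hc⟩ := hl a ha
    obtain ⟨d, hd⟩ := hl b hb
    rw [der_eq] at hc hd
    rw [lieDbl_bracket, der_eq, dp_bracket, Matrix.sub_mulVec, ← Matrix.mulVec_mulVec,
      ← Matrix.mulVec_mulVec, hc, hd, Matrix.mulVec_smul, Matrix.mulVec_smul, hc, hd, smul_comm,
      sub_self]
  | zero =>
    have h : lieDbl (0 : Matrix ι ι ℂ) = 0 := by
      have h1 := lieDbl_smul (0 : ℂ) (0 : Matrix ι ι ℂ)
      rwa [zero_smul, zero_smul] at h1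
    rw [h, Pool.Agent.N202.CF.der_zero_left]
  | add a b _ _ ha hb => rw [lieDbl_add, der_add_left, ha, hb, add_zero]
  | smul c a _ ha => rw [lieDbl_smul, der_smul_left, ha, smul_zero]

include hM in
lemma fixes_of_le (hle : 𝔥 ≤ dC' K P) {y : Matrix ι ι ℂ} (hy : y ∈ 𝔥) : Fixes K P y :=
  ⟨fun n W hW w hw => hle hy n W hW w hw, fun _ _ ht => kill_of_le hM hle ht hy⟩

end mono

section split

variable {𝔤 𝔞 𝔟 : Submodule ℚ (Matrix ι ι ℚ)}

lemma cross (ha : IsIdeal 𝔞 𝔤) (hb : IsIdeal 𝔟 𝔤) (hi : 𝔞 ⊓ 𝔟 = ⊥) {a b : Matrix ι ι ℚ}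
    (haa : a ∈ 𝔞) (hbb : b ∈ 𝔟) : a * b - b * a = 0 := by
  have h1 : a * b - b * a ∈ 𝔞 ⊓ 𝔟 := by
    refine ⟨?_, hb.2 _ (ha.1 haa) _ hbb⟩
    have h2 := 𝔞.neg_mem (ha.2 _ (hb.1 hbb) _ haa)
    rwa [neg_sub] at h2
  rwa [hi, Submodule.mem_bot] at h1

/-- A direct summand of a semisimple Lie algebra is perfect. -/
lemma perf (hg : IsSemisimple 𝔤) (ha : IsIdeal 𝔞 𝔤) (hb : IsIdeal 𝔟 𝔤) (hi : 𝔞 ⊓ 𝔟 = ⊥)
    (hs : 𝔞 ⊔ 𝔟 = 𝔤) : 𝔟 ≤ Submodule.span ℚ {m | ∃ x ∈ 𝔟, ∃ y ∈ 𝔟, m = x * y - y * x} := by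
  set S := Submodule.span ℚ {m | ∃ x ∈ 𝔟, ∃ y ∈ 𝔟, m = x * y - y * x} with hS
  have hSb : S ≤ 𝔟 := by
    refine Submodule.span_le.2 ?_
    rintro _ ⟨x, hx, y, hy, rfl⟩
    exact hb.2 x (hb.1 hx) y hy
  have h1 : 𝔤 ≤ 𝔞 ⊔ S := by
    refine hg.perfect.trans (Submodule.span_le.2 ?_)
    rintro _ ⟨x, hx, y, hy, rfl⟩
    rw [← hs] at hx hy
    obtain ⟨a, ha1, b, hb1, rfl⟩ := Submodule.mem_sup.1 hx
    obtain ⟨c, hc1, d, hd1, rfl⟩ := Submodule.mem_sup.1 hy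
    refine Submodule.mem_sup.2 ⟨a * c - c * a, ha.2 _ (ha.1 ha1) _ hc1, b * d - d * b,
      Submodule.subset_span ⟨b, hb1, d, hd1, rfl⟩, ?_⟩
    have e1 := cross ha hb hi ha1 hd1
    have e2 := cross ha hb hi hc1 hb1
    have e3 : (a + b) * (c + d) - (c + d) * (a + b) =
        (a * c - c * a) + (b * d - d * b) + (a * d - d * a) - (c * b - b * c) := by
      simp only [Matrix.add_mul, Matrix.mul_add]
      abel
    rw [e3, e1, e2, add_zero, sub_zero]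
  intro x hx
  obtain ⟨a, ha1, s, hs1, he⟩ := Submodule.mem_sup.1 (h1 (hb.1 hx))
  have h2 : a ∈ 𝔞 ⊓ 𝔟 := ⟨ha1, by
    have h3 := 𝔟.sub_mem hx (hSb hs1)
    rwa [← he, add_sub_cancel_right] at h3⟩
  rw [hi, Submodule.mem_bot] at h2
  rw [h2, zero_add] at he
  rw [← he]
  exact hs1

/-- Rational elements of the Lie algebra. -/
lemma fixes_of_dL (hle : 𝔤 ≤ dL' K P)
    (hp : 𝔤 ≤ Submodule.span ℚ {m | ∃ x ∈ 𝔤, ∃ y ∈ 𝔤, m = x * y - y * x}) {x : Matrix ι ι ℚ}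
    (hx : x ∈ 𝔤) : Fixes K P (matL ℂ x) := by
  have hC : ∀ x ∈ 𝔤, matL ℂ x ∈ dC' K P := by
    intro x hx
    rw [dC'_iff']
    exact Submodule.subset_span ⟨x, hle hx, rfl⟩
  refine ⟨fun n W hW w hw => hC x hx n W hW w hw, fun n t ht => ?_⟩
  have hl : ∀ y ∈ 𝔤, ∃ c : ℚ, der (lieDbl y) t = c • t := by
    intro y hy
    have h1 := hle hy n _ (isSub_line ht) t (Submodule.subset_span (Set.mem_singleton t))
    obtain ⟨c, hc⟩ := Submodule.mem_span_singleton.1 h1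
    exact ⟨c, hc.symm⟩
  have hz : ∀ y ∈ 𝔤, der (lieDbl y) t = 0 := by
    intro y hy
    have hy' := hp hy
    clear hy
    induction hy' using Submodule.span_induction with
    | mem m hm =>
      obtain ⟨a, ha, b, hb, rfl⟩ := hm
      obtain ⟨c, hc⟩ := hl a ha
      obtain ⟨d, hd⟩ := hl b hb
      rw [der_eq] at hc hd
      rw [lieDbl_bracket, der_eq, dp_bracket, Matrix.sub_mulVec, ← Matrix.mulVec_mulVec,
        ← Matrix.mulVec_mulVec, hc, hd, Matrix.mulVec_smul, Matrix.mulVec_smul, hc, hd, smul_comm,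
        sub_self]
    | zero =>
      have h : lieDbl (0 : Matrix ι ι ℚ) = 0 := by
        have h1 := lieDbl_smul (0 : ℚ) (0 : Matrix ι ι ℚ)
        rwa [zero_smul, zero_smul] at h1
      rw [h, Pool.Agent.N202.CF.der_zero_left]
    | add a b _ _ ha hb => rw [lieDbl_add, der_add_left, ha, hb, add_zero]
    | smul c a _ ha => rw [lieDbl_smul, der_smul_left, ha, smul_zero]
  have h2 : der (lieDbl (matL ℂ x)) (inL ℂ t) = inL ℂ (der (lieDbl x) t) := by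
    rw [inL_eq, inL_eq, matL_eq, ← map_lieDbl_hom, der_up]
  rw [h2, hz x hx]
  funext v
  simp [inL]

variable {B : Set (Matrix ι ι ℂ)} {𝔥 : Submodule ℂ (Matrix ι ι ℂ)}

/-- The monodromy normalises the Lie algebra: semisimple case. -/
lemma norm_mem2 (hM : IsMonodromy B 𝔥) (hPB : P ∈ B) (hP : P * P⁻¹ = 1)
    (hR : NoNewRelations K P B 2) (hS : EndSemisimple K P) {x : Matrix ι ι ℚ} (hx : x ∈ dL' K P)
    {y : Matrix ι ι ℂ} (hy : y ∈ 𝔥) : y * matL ℂ x - matL ℂ x * y ∈ spc (dL' K P) := by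
  obtain ⟨W', hW', hc⟩ := hS _ (isSub_dL' (K := K) hP)
  have hW := isSub_dL' (K := K) hP
  set W := dL' K P with hWd
  have hi : W ⊓ W' = ⊥ := hc.inf_eq_bot
  obtain ⟨p, h1, h2⟩ : ∃ p : Matrix ι ι ℚ →ₗ[ℚ] Matrix ι ι ℚ, (∀ x, p x ∈ W) ∧
      ∀ x, x - p x ∈ W' := by
    refine ⟨W.subtype ∘ₗ W.projectionOnto W' hc, fun x => ?_, fun x => ?_⟩
    · rw [LinearMap.comp_apply]
      exact Subtype.mem _
    · have h3 : x - (W.subtype ∘ₗ W.projectionOnto W' hc) x ∈ (W.projectionOnto W' hc).ker := by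
        rw [LinearMap.mem_ker, map_sub, LinearMap.comp_apply, Submodule.subtype_apply,
          Submodule.projectionOnto_apply_left, sub_self]
      rwa [Submodule.ker_projectionOnto] at h3
  have hd : matL ℂ x ∈ spc W := Submodule.subset_span ⟨_, hx, rfl⟩
  have e := ext_comm hM hPB hP hR hW hW' hi h1 h2 hy (matL ℂ x)
  rw [ext_fix (p_fix hi h1 h2) hd] at e
  rw [← e]
  exact ext_mem h1 _

/-- **The decomposition of the Lie algebra of the monodromy.** -/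
theorem split (hM : IsMonodromy B 𝔥) (hPB : P ∈ B) (hK : ∀ a ∈ K, IsAlgebraic ℚ a)
    (hP : P * P⁻¹ = 1) (hR : NoNewRelations K P B (Fintype.card ι) ∨
      (NoNewRelations K P B 2 ∧ (IsPolarised K P ∨ EndSemisimple K P))) (hg : IsSemisimple 𝔤)
    (hgh : ∀ x ∈ 𝔤, matL ℂ x ∈ 𝔥) (hgs : IsSubEnd K P 𝔤) :
    ∃ 𝔞 𝔟, IsIdeal 𝔞 𝔤 ∧ IsIdeal 𝔟 𝔤 ∧ 𝔞 ⊓ 𝔟 = ⊥ ∧ 𝔞 ⊔ 𝔟 = 𝔤 ∧
      (∀ x ∈ 𝔞, Fixes K P (matL ℂ x)) ∧
      ∀ x ∈ 𝔟, ∀ i j, IsAlgebraic ℚ ((P * matL ℂ x * P⁻¹) i j) := by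
  -- `𝔤` normalises the Lie algebra
  have h1 : ∀ x ∈ 𝔤, ∀ d ∈ dL' K P, x * d - d * x ∈ dL' K P := by
    intro x hx d hd
    have e : matL ℂ x * matL ℂ d - matL ℂ d * matL ℂ x ∈ spc (dL' K P) := by
      rcases hR with hR | ⟨hR, hpol | hS⟩
      · exact norm_mem hM hPB hP (key_of_card hP hR) hd (hgh x hx)
      · exact norm_mem hM hPB hP (key_of_pol hP hpol hR) hd (hgh x hx)
      · exact norm_mem2 hM hPB hP hR hS hd (hgh x hx)
    obtain ⟨lam, hl⟩ := exists_one (K := ℚ)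
    have e2 := mem_spc.1 e lam
    rw [NC.map_comm] at e2
    have e3 : (matL ℂ x).map lam = x := by
      ext i j
      rw [matL_eq, Matrix.map_apply, Matrix.map_apply]
      exact lam_alg hl _
    rwa [e3] at e2
  -- the Lie algebra normalises `𝔤`
  have h2 : ∀ d ∈ dL' K P, ∀ x ∈ 𝔤, d * x - x * d ∈ 𝔤 := fun d hd x hx => ad_mem hgs hd hx
  have ha : IsIdeal (𝔤 ⊓ dL' K P) 𝔤 :=
    ⟨inf_le_left, fun x hx y hy => ⟨hg.bracket.2 x hx y hy.1, h1 x hx y hy.2⟩⟩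
  obtain ⟨𝔟, hb, hi, hs⟩ := hg.compl _ ha
  refine ⟨𝔤 ⊓ dL' K P, 𝔟, ha, hb, hi, hs, fun x hx => ?_, fun x hx i j => ?_⟩
  · exact fixes_of_dL (𝔤 := 𝔤 ⊓ dL' K P) inf_le_right
      (perf hg hb ha (by rw [inf_comm, hi]) (by rw [sup_comm, hs])) hx
  · refine alg_of_comm hP (fun D mu => ?_) i j
    have hv : (P⁻¹ * P.map D).map mu ∈ dL' K P := dC'_iff.1 (log_mem' hK hP D) mu
    set v := (P⁻¹ * P.map D).map mu with hvd
    have h3 : ∀ b ∈ 𝔟, v * b - b * v ∈ 𝔤 ⊓ dL' K P := by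
      intro b hb'
      refine ⟨h2 v hv b (hb.1 hb'), ?_⟩
      have h4 := (dL' K P).neg_mem (h1 b (hb.1 hb') v hv)
      rwa [neg_sub] at h4
    have h4 := perf hg ha hb hi hs hx
    clear hx
    induction h4 using Submodule.span_induction with
    | mem m hm =>
      obtain ⟨b, hb1, c, hc1, rfl⟩ := hm
      have e1 := cross ha hb hi (h3 b hb1) hc1
      have e2 := cross ha hb hi (h3 c hc1) hb1
      have e3 : v * (b * c - c * b) - (b * c - c * b) * v =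
          ((v * b - b * v) * c - c * (v * b - b * v)) -
            ((v * c - c * v) * b - b * (v * c - c * v)) := by
        simp only [Matrix.mul_sub, Matrix.sub_mul, ← Matrix.mul_assoc]
        abel
      rw [e3, e1, e2, sub_zero]
    | zero => rw [Matrix.mul_zero, Matrix.zero_mul, sub_zero]
    | add a b _ _ ha' hb' =>
      rw [Matrix.mul_add, Matrix.add_mul, add_sub_add_comm, ha', hb', add_zero]
    | smul c a _ ha' => rw [Matrix.mul_smul, Matrix.smul_mul, ← smul_sub, ha', smul_zero]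

end split

end Pool.Agent.N202.QD
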